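import Pool.Agent.H2.CO.Gd
import Pool.Graph.R_seed8.W878.VC.Spc

set_option autoImplicit false

/-!
Coding of structures with relations which are piecewise closed under the median.
-/

namespace Pool.Agent.H2.CO

open Set MeasureTheory
open Pool.Agent.W889.VC (BP)
open Pool.Agent.W878.VC (aU act_U ana_U uiso_iff dicho_U par)
open Pool.Agent.H533R2.VO (RS)
open Pool.Agent.H533R2.VS (US UIso UDich VCu)
open Pool.Agent.H2.LP (Lin md Cl3 Pmd Ql pr vcu_md)

/-- types of tuples over a system of sets -/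
abbrev Ty (n N : ℕ) : Type := (Fin n → Fin n → Bool) × (Fin N → Fin n → Bool)

/-- numbers of types -/
noncomputable def cod (n N : ℕ) : Ty n N → ℕ := (Countable.exists_injective_nat (Ty n N)).choose

theorem cod_inj (n N : ℕ) : Function.Injective (cod n N) :=
  (Countable.exists_injective_nat (Ty n N)).choose_spec

/-- the pieces of the relation `R` -/
def Pc (le : ℕ → ℕ → Prop) {n : ℕ} (R : (Fin n → ℕ) → Prop) (N e : ℕ) (v : Fin n → ℕ) : Prop :=
  R v ∧ (∃ I : Sy N, Good le R I) ∧ ∃ τ : Ty n N, cod n N τ = e ∧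
    (∀ j l, le (v j) (v l) ↔ τ.1 j l = true) ∧
    ∀ k j, Ic (fun I : Sy N => Good le R I) k (v j) ↔ τ.2 k j = true

/-- good systems form a closed set -/
theorem good_cl (le : ℕ → ℕ → Prop) {n N : ℕ} (R : (Fin n → ℕ) → Prop) :
    IsClosed {I : Sy N | Good le R I} :=
  (np_good (Y := Unit) (o := fun _ => le) (R := fun _ => R) (fun _ _ => BP.const _)
    (fun _ => BP.const _)).closed ()

theorem good_ic {le : ℕ → ℕ → Prop} (h : Lin le) {n N : ℕ} {R : (Fin n → ℕ) → Prop}
    (hne : ∃ I : Sy N, Good le R I) :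
    ∃ I : Sy N, Good le R I ∧ ∀ k u, I k u = true ↔ Ic (fun I : Sy N => Good le R I) k u :=
  ic_mem h.total (good_cl le R) (fun _ hI => hI.1) hne

theorem pc_cl {le : ℕ → ℕ → Prop} (h : Lin le) {n : ℕ} (R : (Fin n → ℕ) → Prop) (N e : ℕ) :
    Cl3 (md le) (Pc le R N e) := by
  rintro u v w ⟨u1, u2, τ, u3, u4, u5⟩ ⟨v1, v2, τ', v3, v4, v5⟩ ⟨w1, w2, τ'', w3, w4, w5⟩
  obtain rfl := cod_inj n N (u3.trans v3.symm)
  obtain rfl := cod_inj n N (u3.trans w3.symm)
  obtain ⟨I, hI, hIc⟩ := good_ic h u2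
  obtain ⟨k1, k2, k3⟩ := cl_piece h hI (fun j l => τ.1 j l = true) (fun k j => τ.2 k j = true)
    u v w ⟨u1, u4, fun k j => (hIc k _).trans (u5 k j)⟩ ⟨v1, v4, fun k j => (hIc k _).trans (v5 k j)⟩
    ⟨w1, w4, fun k j => (hIc k _).trans (w5 k j)⟩
  exact ⟨k1, u2, τ, u3, k2, fun k j => (hIc k _).symm.trans (k3 k j)⟩

theorem pc_ex {le : ℕ → ℕ → Prop} {n : ℕ} {R : (Fin n → ℕ) → Prop}
    (hR : ∃ N, ∃ I : Sy N, Good le R I) (v : Fin n → ℕ) : R v ↔ ∃ N e, Pc le R N e v := by
  classical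
  constructor
  · intro h
    obtain ⟨N, hN⟩ := hR
    exact ⟨N, _, h, hN, (fun j l => decide (le (v j) (v l)),
      fun k j => decide (Ic (fun I : Sy N => Good le R I) k (v j))), rfl,
      fun j l => by simp, fun k j => by simp⟩
  · rintro ⟨N, e, h, -⟩
    exact h

theorem pc_sh {le le' : ℕ → ℕ → Prop} {σ : Equiv.Perm ℕ} (h : ∀ u v, le' (σ u) (σ v) ↔ le u v)
    {n : ℕ} {R R' : (Fin n → ℕ) → Prop} (hR : ∀ v, R' (⇑σ ∘ v) ↔ R v) (N e : ℕ)
    (v : Fin n → ℕ) : Pc le' R' N e (⇑σ ∘ v) ↔ Pc le R N e v := by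
  unfold Pc
  have hic : ∀ (k : Fin N) (u : ℕ), Ic (fun I : Sy N => Good le' R' I) k (σ u) ↔
      Ic (fun I : Sy N => Good le R I) k u := fun k u => ic_sh σ (fun I => good_sh h hR I) k u
  have hex : (∃ I : Sy N, Good le' R' I) ↔ ∃ I : Sy N, Good le R I := by
    constructor
    · rintro ⟨I, hI⟩
      exact ⟨sh σ I, (good_sh h hR I).1 hI⟩
    · rintro ⟨I, hI⟩
      refine ⟨sh σ⁻¹ I, (good_sh h hR _).2 ?_⟩
      have : sh σ (sh σ⁻¹ I) = I := by
        funext k v
        show I k (σ⁻¹ (σ v)) = I k v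
        simp
      rw [this]
      exact hI
  rw [hR, hex]
  refine and_congr Iff.rfl (and_congr Iff.rfl (exists_congr fun τ => and_congr Iff.rfl
    (and_congr ?_ ?_)))
  · refine forall_congr' fun j => forall_congr' fun l => ?_
    show (le' (σ (v j)) (σ (v l)) ↔ _) ↔ _
    rw [h]
  · refine forall_congr' fun k => forall_congr' fun j => ?_
    show (Ic _ k (σ (v j)) ↔ _) ↔ _
    rw [hic]

theorem bp_pc {Y : Type} [MeasurableSpace Y] {o : Y → ℕ → ℕ → Prop}
    (ho : ∀ u v, BP fun y => o y u v) {n : ℕ} {R : Y → (Fin n → ℕ) → Prop}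
    (hR : ∀ v, BP fun y => R y v) (N e : ℕ) (v : Fin n → ℕ) :
    BP fun y => Pc (o y) (R y) N e v := by
  have hg : NP fun y (I : Sy N) => Good (o y) (R y) I := np_good ho hR
  exact (hR v).and <| hg.ex.and <| BP.ex fun τ => (BP.const _).and <|
    (BP.all fun j => BP.all fun l => (ho _ _).iff (BP.const _)).and <|
    BP.all fun k => BP.all fun j => (bp_ic hg k _).iff (BP.const _)

/-! ### the coding -/

variable {a : ℕ → ℕ} {k : ℕ}

/-- structures with parameters -/
abbrev YP (a : ℕ → ℕ) (k : ℕ) : Type := US a × (Fin k → ℕ)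

/-- the arities of the coded structure -/
def ar (a : ℕ → ℕ) : ℕ → ℕ
  | 0 => 2
  | j + 1 => a (Nat.unpair j).1

/-- the relation with number `i` -/
def Rl (x : US a) (i : ℕ) (t : Fin (a i) → ℕ) : Prop := x.1 i t = true

open Classical in
/-- the relations of the coded structure -/
noncomputable def c1 (o : YP a k → ℕ → ℕ → Prop) (y : YP a k) :
    (j : ℕ) → (Fin (ar a j) → ℕ) → Bool
  | 0 => fun (v : Fin 2 → ℕ) => decide (o y (v 0) (v 1))
  | j + 1 => fun (v : Fin (a (Nat.unpair j).1) → ℕ) =>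
    decide (Pc (o y) (Rl y.1 (Nat.unpair j).1) (Nat.unpair (Nat.unpair j).2).1
      (Nat.unpair (Nat.unpair j).2).2 v)

/-- the unary predicates of the coded structure -/
def c2 (y : YP a k) (i m : ℕ) : Bool :=
  if h : i < k then decide (m = y.2 ⟨i, h⟩) else y.1.2 (i - k) m

/-- the coding -/
noncomputable def cc (o : YP a k → ℕ → ℕ → Prop) (y : YP a k) : US (ar a) := (c1 o y, c2 y)

theorem bp_rl (i : ℕ) (t : Fin (a i) → ℕ) : BP fun y : YP a k => Rl y.1 i t := by
  have h1 : Measurable fun y : YP a k => y.1.1 i t :=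
    (measurable_pi_apply t).comp ((measurable_pi_apply i).comp
      (measurable_fst.comp measurable_fst))
  exact h1 (measurableSet_singleton true)

theorem m_cc {o : YP a k → ℕ → ℕ → Prop} (ho : ∀ u v, BP fun y => o y u v) :
    Measurable (cc o) := by
  classical
  refine Measurable.prodMk ?_ ?_
  · refine measurable_pi_lambda _ fun j => measurable_pi_lambda _ fun v => measurable_to_bool ?_
    cases j with
    | zero =>
      have h : BP fun y : YP a k => o y ((show Fin 2 → ℕ from v) 0) ((show Fin 2 → ℕ from v) 1) :=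
        ho _ _
      exact h.congr fun y => (decide_eq_true_iff (p := o y _ _)).symm
    | succ j =>
      have h := bp_pc (Y := YP a k) ho (R := fun y => Rl y.1 (Nat.unpair j).1)
        (fun t => bp_rl _ t) (Nat.unpair (Nat.unpair j).2).1 (Nat.unpair (Nat.unpair j).2).2 v
      exact h.congr fun y => (decide_eq_true_iff (p := Pc _ _ _ _ _)).symm
  · refine measurable_pi_lambda _ fun i => measurable_pi_lambda _ fun m => measurable_to_bool ?_
    by_cases hi : i < k
    · have h0 : Measurable fun y : YP a k => y.2 ⟨i, hi⟩ :=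
        (measurable_pi_apply (⟨i, hi⟩ : Fin k)).comp measurable_snd
      have h : BP fun y : YP a k => y.2 ⟨i, hi⟩ = m := h0 (measurableSet_singleton m)
      refine h.congr fun y => ?_
      show _ ↔ (if h : i < k then decide (m = y.2 ⟨i, h⟩) else y.1.2 (i - k) m) = true
      rw [dif_pos hi, decide_eq_true_iff]
      exact eq_comm
    · have h0 : Measurable fun y : YP a k => y.1.2 (i - k) m :=
        (measurable_pi_apply m).comp ((measurable_pi_apply (i - k)).comp
          (measurable_snd.comp measurable_fst))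
      have h : BP fun y : YP a k => y.1.2 (i - k) m = true := h0 (measurableSet_singleton true)
      refine h.congr fun y => ?_
      show _ ↔ (if h : i < k then decide (m = y.2 ⟨i, h⟩) else y.1.2 (i - k) m) = true
      rw [dif_neg hi]

theorem rl_sh (σ : Equiv.Perm ℕ) (x : US a) (i : ℕ) (t : Fin (a i) → ℕ) :
    Rl (aU σ x) i (⇑σ ∘ t) ↔ Rl x i t := by
  have e : ⇑σ⁻¹ ∘ (⇑σ ∘ t) = t := funext fun j => σ.symm_apply_apply _
  show x.1 i (⇑σ⁻¹ ∘ (⇑σ ∘ t)) = true ↔ _
  rw [e]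
  exact Iff.rfl

theorem cc_act {o : YP a k → ℕ → ℕ → Prop}
    (hoe : ∀ (σ : Equiv.Perm ℕ) (x : US a) (p : Fin k → ℕ) (u v : ℕ),
      o (aU σ x, ⇑σ ∘ p) (σ u) (σ v) ↔ o (x, p) u v) (σ : Equiv.Perm ℕ) (x : US a)
    (p : Fin k → ℕ) : cc o (aU σ x, ⇑σ ∘ p) = aU σ (cc o (x, p)) := by
  classical
  have ei : ∀ u, σ (σ⁻¹ u) = u := fun u => σ.apply_symm_apply u
  refine Prod.ext ?_ ?_
  · funext j
    cases j with
    | zero =>
      funext (v : Fin 2 → ℕ)
      show decide (o (aU σ x, ⇑σ ∘ p) (v 0) (v 1)) = decide (o (x, p) (σ⁻¹ (v 0)) (σ⁻¹ (v 1)))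
      rw [decide_eq_decide]
      have h := hoe σ x p (σ⁻¹ (v 0)) (σ⁻¹ (v 1))
      rw [ei, ei] at h
      exact h
    | succ j =>
      funext (v : Fin (a (Nat.unpair j).1) → ℕ)
      show decide (Pc (o (aU σ x, ⇑σ ∘ p)) (Rl (aU σ x) (Nat.unpair j).1)
        (Nat.unpair (Nat.unpair j).2).1 (Nat.unpair (Nat.unpair j).2).2 v) =
        decide (Pc (o (x, p)) (Rl x (Nat.unpair j).1)
        (Nat.unpair (Nat.unpair j).2).1 (Nat.unpair (Nat.unpair j).2).2 (⇑σ⁻¹ ∘ v))
      rw [decide_eq_decide]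
      have h := pc_sh (hoe σ x p) (R := Rl x (Nat.unpair j).1)
        (R' := Rl (aU σ x) (Nat.unpair j).1) (rl_sh σ x _)
        (Nat.unpair (Nat.unpair j).2).1 (Nat.unpair (Nat.unpair j).2).2 (⇑σ⁻¹ ∘ v)
      have e : ⇑σ ∘ (⇑σ⁻¹ ∘ v) = v := funext fun j => ei _
      rw [e] at h
      exact h
  · funext i m
    show (if h : i < k then decide (m = σ (p ⟨i, h⟩)) else x.2 (i - k) (σ⁻¹ m)) =
      (if h : i < k then decide (σ⁻¹ m = p ⟨i, h⟩) else x.2 (i - k) (σ⁻¹ m))
    by_cases hi : i < k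
    · rw [dif_pos hi, dif_pos hi, decide_eq_decide]
      constructor
      · rintro rfl
        exact σ.symm_apply_apply _
      · intro h
        rw [← h, ei]
    · rw [dif_neg hi, dif_neg hi]

/-- The general theorem. -/
theorem gen (o : YP a k → ℕ → ℕ → Prop) (ho : ∀ u v, BP fun y => o y u v)
    (hoe : ∀ (σ : Equiv.Perm ℕ) (x : US a) (p : Fin k → ℕ) (u v : ℕ),
      o (aU σ x, ⇑σ ∘ p) (σ u) (σ v) ↔ o (x, p) u v)
    {V : RS a → Prop}
    (hV : ∀ x : US a, V x.1 → ∃ p : Fin k → ℕ, Lin (o (x, p)) ∧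
      ∀ i, ∃ N, ∃ I : Sy N, Good (o (x, p)) (Rl x i) I) : VCu V := by
  classical
  intro B hB hBi hBV
  have hP : PolishSpace (YP a k) := {}
  have hBo : BorelSpace (YP a k) := Prod.borelSpace
  let E : YP a k → Prop := fun y => Lin (o y) ∧ ∀ i, ∃ N, ∃ I : Sy N, Good (o y) (Rl y.1 i) I
  have hE : BP E := by
    have h1 : BP fun y => Lin (o y) := by
      have h2 : BP fun y => (∀ u, o y u u) ∧ (∀ u v, o y u v → o y v u → u = v) ∧
          (∀ u v w, o y u v → o y v w → o y u w) ∧ ∀ u v, o y u v ∨ o y v u :=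
        (BP.all fun u => ho _ _).and <|
        (BP.all fun u => BP.all fun v => (ho _ _).imp <| (ho _ _).imp <| BP.const _).and <|
        (BP.all fun u => BP.all fun v => BP.all fun w => (ho _ _).imp <| (ho _ _).imp (ho _ _)).and
        (BP.all fun u => BP.all fun v => (ho _ _).or (ho _ _))
      exact h2.congr fun y => ⟨fun h => ⟨h.1, h.2.1, h.2.2.1, h.2.2.2⟩,
        fun h => ⟨h.refl, h.anti, h.trans, h.total⟩⟩
    exact h1.and <| BP.all fun i => BP.ex fun N =>
      (np_good ho (R := fun y : YP a k => Rl y.1 i) fun t => bp_rl _ t).ex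
  have hrl : ∀ (x : US a) (i : ℕ) (σ : Equiv.Perm ℕ) (v : Fin (a i) → ℕ),
      Rl (aU σ x) i (⇑σ ∘ v) ↔ Rl x i v := fun x i σ v => rl_sh σ x i v
  have hEi : ∀ (x : US a) (p : Fin k → ℕ), E (x, p) → ∀ σ : Equiv.Perm ℕ,
      E (aU σ x, ⇑σ ∘ p) := by
    rintro x p ⟨h1, h3⟩ σ
    have ei : ∀ u, σ (σ⁻¹ u) = u := fun u => σ.apply_symm_apply u
    have hq : ∀ u v, o (aU σ x, ⇑σ ∘ p) u v ↔ o (x, p) (σ⁻¹ u) (σ⁻¹ v) := by
      intro u v
      have h := hoe σ x p (σ⁻¹ u) (σ⁻¹ v)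
      rw [ei, ei] at h
      exact h
    refine ⟨⟨fun u => ?_, fun u v => ?_, fun u v w => ?_, fun u v => ?_⟩, fun i => ?_⟩
    · rw [hq]
      exact h1.refl _
    · rw [hq, hq]
      intro h4 h5
      exact σ⁻¹.injective (h1.anti _ _ h4 h5)
    · rw [hq, hq, hq]
      exact h1.trans _ _ _
    · rw [hq, hq]
      exact h1.total _ _
    · obtain ⟨N, I, hI⟩ := h3 i
      refine ⟨N, sh σ⁻¹ I, ?_⟩
      refine (good_sh (hoe σ x p) (hrl x i σ) _).2 ?_
      have : sh σ (sh σ⁻¹ I) = I := by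
        funext k v
        show I k (σ⁻¹ (σ v)) = I k v
        simp
      rw [this]
      exact hI
  have hBi' : ∀ x ∈ B, ∀ σ : Equiv.Perm ℕ, aU σ x ∈ B := fun x hx σ =>
    (hBi x (aU σ x) ((uiso_iff _ _).2 ⟨σ, rfl⟩)).1 hx
  let D : Set (YP a k) := Prod.fst ⁻¹' B ∩ {y | E y}
  have hD : MeasurableSet D := (measurable_fst hB).inter hE
  have hDi : ∀ x p, (x, p) ∈ D → ∀ σ : Equiv.Perm ℕ, (aU σ x, ⇑σ ∘ p) ∈ D := by
    rintro x p ⟨h1, h2⟩ σ
    exact ⟨hBi' x h1 σ, hEi x p h2 σ⟩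
  have hdec : ∀ y : YP a k, ∀ j (v : Fin (a (Nat.unpair j).1) → ℕ),
      (cc o y).1 (j + 1) v = true ↔ Pc (o y) (Rl y.1 (Nat.unpair j).1)
        (Nat.unpair (Nat.unpair j).2).1 (Nat.unpair (Nat.unpair j).2).2 v := fun y j v =>
    decide_eq_true_iff (p := Pc _ _ _ _ _)
  have hord : ∀ (y : YP a k) (v : Fin 2 → ℕ), (cc o y).1 0 v = true ↔ o y (v 0) (v 1) :=
    fun y v => decide_eq_true_iff (p := o y (v 0) (v 1))
  have hinj : InjOn (cc o) D := by
    rintro ⟨x, p⟩ ⟨hx1, hx2, hx4⟩ ⟨y, q⟩ ⟨hy1, hy2, hy4⟩ e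
    have e1 := congrArg Prod.fst e
    have e2 := congrArg Prod.snd e
    have hpq : p = q := by
      funext i
      have k1 : c2 (x, p) i.val (p i) = c2 (y, q) i.val (p i) := congrFun (congrFun e2 i.val) (p i)
      unfold c2 at k1
      rw [dif_pos i.isLt, dif_pos i.isLt] at k1
      have k2 : decide (p i = p i) = decide (p i = q i) := k1
      rw [decide_eq_true rfl] at k2
      exact of_decide_eq_true k2.symm
    have ho' : o (x, p) = o (y, q) := by
      funext u v
      have k1 := hord (x, p) ![u, v]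
      have k2 := hord (y, q) ![u, v]
      rw [e1, k2] at k1
      exact propext k1.symm
    have hx : x.1 = y.1 := by
      funext i v
      rw [Bool.eq_iff_iff]
      have k1 := pc_ex (hx4 i) v
      have k2 := pc_ex (hy4 i) v
      refine k1.trans (Iff.trans ?_ k2.symm)
      refine exists_congr fun N => exists_congr fun e' => ?_
      obtain ⟨j, hj⟩ : ∃ j, Nat.unpair j = (i, Nat.pair N e') :=
        ⟨Nat.pair i (Nat.pair N e'), Nat.unpair_pair _ _⟩
      have hj1 : (Nat.unpair j).1 = i := by rw [hj]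
      have hj2 : (Nat.unpair (Nat.unpair j).2).1 = N := by rw [hj, Nat.unpair_pair]
      have hj3 : (Nat.unpair (Nat.unpair j).2).2 = e' := by rw [hj, Nat.unpair_pair]
      subst hj1
      subst hj2
      subst hj3
      rw [← hdec (x, p) j v, ← hdec (y, q) j v, e1]
    have hu : x.2 = y.2 := by
      funext j m
      have k1 : c2 (x, p) (j + k) m = c2 (y, q) (j + k) m := congrFun (congrFun e2 (j + k)) m
      unfold c2 at k1
      rw [dif_neg (by omega), dif_neg (by omega), Nat.add_sub_cancel] at k1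
      exact k1
    rw [hpq]
    exact Prod.ext (Prod.ext hx hu) rfl
  have hce := m_cc (k := k) ho
  have key := par (Y := US a) (Z := US (ar a)) k (act_U (ar a)) (ana_U a) D hD hDi (cc o) hce
    (fun σ x p => cc_act hoe σ x p) hinj ?_
  · have e : {x | ∃ p : Fin k → ℕ, (x, p) ∈ D} = B := by
      ext x
      constructor
      · rintro ⟨_, h1, _⟩
        exact h1
      · intro hx
        obtain ⟨p, hp⟩ := hV x (hBV x hx)
        exact ⟨p, hx, hp⟩
    rw [e, dicho_U] at key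
    exact key
  · rw [dicho_U]
    apply vcu_md (a := ar a) 0
    · exact hD.image_of_measurable_injOn hce hinj
    · have h1 : ∀ x y, UIso x y → x ∈ cc o '' D → y ∈ cc o '' D := by
        rintro x y hxy ⟨⟨z, p⟩, hz, rfl⟩
        obtain ⟨σ, rfl⟩ := (uiso_iff _ _).1 hxy
        exact ⟨(aU σ z, ⇑σ ∘ p), hDi z p hz σ, cc_act hoe σ z p⟩
      intro x y hxy
      refine ⟨h1 x y hxy, h1 y x ?_⟩
      obtain ⟨σ, rfl⟩ := (uiso_iff _ _).1 hxy
      exact (uiso_iff _ _).2 ⟨σ⁻¹, ((act_U (ar a)).inv_apply σ x).symm⟩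
    · rintro _ ⟨y, ⟨hy1, hy2, hy4⟩, rfl⟩
      have eq : Ql (cc o y).1 0 = o y := by
        funext u v
        exact propext (hord y (pr u v))
      unfold Pmd
      rw [eq]
      refine ⟨hy2, fun i => ?_⟩
      cases i with
      | zero =>
        intro s t u hs ht hu
        have hs' := (hord y s).1 hs
        have ht' := (hord y t).1 ht
        have hu' := (hord y u).1 hu
        refine (hord y _).2 ?_
        exact (md_ty hy2 ⟨fun _ => ht', fun _ => hs'⟩ ⟨fun _ => hu', fun _ => hs'⟩).2 hs'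
      | succ j =>
        intro s t u hs ht hu
        have hs' := (hdec y j s).1 hs
        have ht' := (hdec y j t).1 ht
        have hu' := (hdec y j u).1 hu
        exact (hdec y j _).2 (pc_cl hy2 _ _ _ s t u hs' ht' hu')

end Pool.Agent.H2.CO
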