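import Pool.Agent.H2.CO.Sym
import Pool.Agent.H2.CO.Cod

set_option autoImplicit false

/-!
The classes of structures.
-/

namespace Pool.Agent.H2.CO

open Set MeasureTheory
open Pool.Agent.W889.VC (BP)
open Pool.Agent.W878.VC (aU)
open Pool.Agent.H533R2.VO (RS)
open Pool.Agent.H533R2.VS (US VCu)
open Pool.Agent.H2.LP (Lin md pr)

variable {a : ℕ → ℕ} {k : ℕ}

/-- the triple -/
def tri {n : ℕ} (u v w : ℕ) : Fin n → ℕ := fun j => if j.val = 0 then u else if j.val = 1 then v
  else w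

/-- the quadruple -/
def qua {n : ℕ} (u v w t : ℕ) : Fin n → ℕ := fun j => if j.val = 0 then u else
  if j.val = 1 then v else if j.val = 2 then w else t

theorem comp_tri {n : ℕ} (σ : ℕ → ℕ) (u v w : ℕ) :
    σ ∘ (tri u v w : Fin n → ℕ) = tri (σ u) (σ v) (σ w) := by
  funext j
  show σ (if j.val = 0 then u else if j.val = 1 then v else w) = _
  unfold tri
  split_ifs <;> rfl

theorem comp_qua {n : ℕ} (σ : ℕ → ℕ) (u v w t : ℕ) :
    σ ∘ (qua u v w t : Fin n → ℕ) = qua (σ u) (σ v) (σ w) (σ t) := by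
  funext j
  show σ (if j.val = 0 then u else if j.val = 1 then v else if j.val = 2 then w else t) = _
  unfold qua
  split_ifs <;> rfl

/-- Parameter-definable linear orders. -/
theorem pm_gen (o : RS a → (Fin k → ℕ) → ℕ → ℕ → Prop)
    (ho : ∀ p u v, BP fun x => o x p u v)
    (hi : ∀ (x y : RS a) (σ : Equiv.Perm ℕ), (∀ i (v : Fin (a i) → ℕ), y i (⇑σ ∘ v) = x i v) →
      ∀ p u v, o y (⇑σ ∘ p) (σ u) (σ v) ↔ o x p u v) :
    VCu fun x : RS a => ∃ p, Lin (o x p) ∧ ∀ i, PM (o x p) fun t => x i t = true := by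
  refine gen (fun y => o y.1.1 y.2) (fun u v => ?_) (fun σ x p u v => ?_) fun x hx => hx
  · have h1 : BP fun y : YP a k => ∃ p : Fin k → ℕ, y.2 = p ∧ o y.1.1 p u v := by
      refine BP.ex fun p => BP.and ?_ ?_
      · exact measurable_snd (measurableSet_singleton p)
      · exact (measurable_fst.comp measurable_fst) (ho p u v)
    exact h1.congr fun y => ⟨fun ⟨p, h2, h3⟩ => by rw [h2]; exact h3, fun h2 => ⟨_, rfl, h2⟩⟩
  · refine hi x.1 (aU σ x).1 σ (fun i v => ?_) p u v
    have e : ⇑σ⁻¹ ∘ (⇑σ ∘ v) = v := funext fun j => σ.symm_apply_apply _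
    show x.1 i (⇑σ⁻¹ ∘ (⇑σ ∘ v)) = x.1 i v
    rw [e]

theorem bp_r (i : ℕ) (t : Fin (a i) → ℕ) : BP fun x : RS a => x i t = true := by
  have h1 : Measurable fun x : RS a => x i t :=
    (measurable_pi_apply t).comp (measurable_pi_apply i)
  exact h1 (measurableSet_singleton true)

theorem two_dist {le : ℕ → ℕ → Prop} (h : Lin le) : ∃ p q, lt le p q := by
  rcases h.total 0 1 with h1 | h1
  · exact ⟨0, 1, fun h2 => absurd (h.anti _ _ h1 h2) (by decide)⟩
  · exact ⟨1, 0, fun h2 => absurd (h.anti _ _ h1 h2) (by decide)⟩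

/-- the ternary relation -/
def r3 (x : RS a) (u v w : ℕ) : Prop := x 0 (tri u v w) = true

/-- the quaternary relation -/
def r4 (x : RS a) (u v w t : ℕ) : Prop := x 0 (qua u v w t) = true

theorem r3_iff {n : ℕ} (hn : n = 3) (R : (Fin n → ℕ) → Prop) (P : ℕ → ℕ → ℕ → Prop)
    (hP : ∀ u v w, R (tri u v w) ↔ P u v w) (le : ℕ → ℕ → Prop) (h : Lin le)
    (hq : ∀ u v w u' v' w', (le u v ↔ le u' v') → (le v u ↔ le v' u') → (le v w ↔ le v' w') →
      (le w v ↔ le w' v') → (le u w ↔ le u' w') → (le w u ↔ le w' u') → P u v w → P u' v' w') :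
    PM le R := by
  subst hn
  have e : ∀ t : Fin 3 → ℕ, t = tri (t 0) (t 1) (t 2) := by
    intro t
    funext j
    fin_cases j <;> rfl
  refine qf_pm h fun u v huv hu => ?_
  rw [e u, hP] at hu
  rw [e v, hP]
  exact hq _ _ _ _ _ _ (huv _ _) (huv _ _) (huv _ _) (huv _ _) (huv _ _) (huv _ _) hu

theorem r4_iff {n : ℕ} (hn : n = 4) (R : (Fin n → ℕ) → Prop) (C : ℕ → ℕ → ℕ → Prop)
    (hP : ∀ u v w t, R (qua u v w t) ↔ sep C u v w t) (le : ℕ → ℕ → Prop) (h : Lin le)
    (hq : ∀ u v w u' v' w', (le u v ↔ le u' v') → (le v u ↔ le v' u') → (le v w ↔ le v' w') →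
      (le w v ↔ le w' v') → (le u w ↔ le u' w') → (le w u ↔ le w' u') → C u v w → C u' v' w') :
    PM le R := by
  subst hn
  have e : ∀ t : Fin 4 → ℕ, t = qua (t 0) (t 1) (t 2) (t 3) := by
    intro t
    funext j
    fin_cases j <;> rfl
  refine qf_pm h fun u v huv hu => ?_
  rw [e u, hP] at hu
  rw [e v, hP]
  rcases hu with ⟨h1, h2⟩ | ⟨h1, h2⟩
  · exact Or.inl ⟨hq _ _ _ _ _ _ (huv _ _) (huv _ _) (huv _ _) (huv _ _) (huv _ _) (huv _ _) h1,
      hq _ _ _ _ _ _ (huv _ _) (huv _ _) (huv _ _) (huv _ _) (huv _ _) (huv _ _) h2⟩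
  · exact Or.inr ⟨hq _ _ _ _ _ _ (huv _ _) (huv _ _) (huv _ _) (huv _ _) (huv _ _) (huv _ _) h1,
      hq _ _ _ _ _ _ (huv _ _) (huv _ _) (huv _ _) (huv _ _) (huv _ _) (huv _ _) h2⟩

theorem pm_cg {n : ℕ} {le le' : ℕ → ℕ → Prop} (h : ∀ u v, le u v ↔ le' u v)
    {R : (Fin n → ℕ) → Prop} (hR : PM le R) : PM le' R := by
  have : le = le' := funext fun u => funext fun v => propext (h u v)
  rw [← this]
  exact hR

theorem lin_cg {le le' : ℕ → ℕ → Prop} (h : ∀ u v, le u v ↔ le' u v) (hR : Lin le) : Lin le' := by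
  have : le = le' := funext fun u => funext fun v => propext (h u v)
  rw [← this]
  exact hR

theorem vcu_mono {V W : RS a → Prop} (h : VCu W) (hVW : ∀ x, V x → W x) : VCu V :=
  fun B hB hi hV => h B hB hi fun x hx => hVW _ (hV x hx)

/-- betweenness relations -/
theorem vcu_bet (ha : a 0 = 3) : VCu fun x : RS a => ∃ le, Lin le ∧
    (∀ u v w, r3 x u v w ↔ bet le u v w) ∧ ∀ i, PM le fun t => x (i + 1) t = true := by
  have hg := pm_gen (a := a) (k := 2) (fun x p u v => ob (r3 x) (p 0) (p 1) u v)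
    (fun p u v => (BP.const _).or <| ((BP.const _).and (bp_r _ _)).or <|
      (BP.const _).and ((bp_r _ _).iff (bp_r _ _))) (fun x y σ hσ p u v => ?_)
  · refine vcu_mono hg fun x hx => ?_
    obtain ⟨le, h1, h2, h3⟩ := hx
    obtain ⟨p, q, hpq⟩ := two_dist h1
    have e2 : r3 x = bet le := by
      funext u v w
      exact propext (h2 u v w)
    have e : ∀ u v, le u v ↔ ob (r3 x) p q u v := by
      intro u v
      rw [e2]
      exact (ob_eq h1 hpq u v).symm
    refine ⟨![p, q], lin_cg e h1, fun i => pm_cg e ?_⟩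
    cases i with
    | zero =>
      refine r3_iff ha _ (bet le) h2 le h1 ?_
      intro u v w u' v' w' a1 a2 a3 a4 a5 a6
      unfold bet lt
      rw [a1, a2, a3, a4]
      exact id
    | succ i => exact h3 i
  · have hr : ∀ u v w, r3 y (σ u) (σ v) (σ w) ↔ r3 x u v w := by
      intro u v w
      unfold r3
      rw [← comp_tri, hσ]
    show ob (r3 y) (σ (p 0)) (σ (p 1)) (σ u) (σ v) ↔ ob (r3 x) (p 0) (p 1) u v
    unfold ob
    rw [hr, hr, hr, σ.injective.eq_iff, ne_eq, ne_eq, σ.injective.eq_iff]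

/-- circular orders -/
theorem vcu_cir (ha : a 0 = 3) : VCu fun x : RS a => ∃ le, Lin le ∧
    (∀ u v w, r3 x u v w ↔ cir le u v w) ∧ ∀ i, PM le fun t => x (i + 1) t = true := by
  have hg := pm_gen (a := a) (k := 1) (fun x p u v => oc (r3 x) (p 0) u v)
    (fun p u v => (BP.const _).or <| (BP.const _).or (bp_r _ _)) (fun x y σ hσ p u v => ?_)
  · refine vcu_mono hg fun x hx => ?_
    obtain ⟨le, h1, h2, h3⟩ := hx
    have e2 : r3 x = cir le := by
      funext u v w
      exact propext (h2 u v w)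
    have e : ∀ u v, rot (fun x => lt le x 0) le u v ↔ oc (r3 x) 0 u v := by
      intro u v
      rw [e2]
      exact (oc_eq h1 u v).symm
    have hA : ∀ u v, le u v → lt le v 0 → lt le u 0 := fun u v h4 h5 h6 =>
      h5 (h1.trans _ _ _ h6 h4)
    refine ⟨fun _ => 0, lin_cg e (rot_lin _ h1), fun i => pm_cg e (pm_rot h1 hA ?_)⟩
    cases i with
    | zero =>
      refine r3_iff ha _ (cir le) h2 le h1 ?_
      intro u v w u' v' w' a1 a2 a3 a4 a5 a6
      unfold cir lt
      rw [a2, a4, a5]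
      exact id
    | succ i => exact h3 i
  · have hr : ∀ u v w, r3 y (σ u) (σ v) (σ w) ↔ r3 x u v w := by
      intro u v w
      unfold r3
      rw [← comp_tri, hσ]
    show oc (r3 y) (σ (p 0)) (σ u) (σ v) ↔ oc (r3 x) (p 0) u v
    unfold oc
    rw [hr, σ.injective.eq_iff, σ.injective.eq_iff]

theorem circ_le {le : ℕ → ℕ → Prop} (h : Lin le) : Circ (cir le) := by
  classical
  refine ⟨fun x y z => ?_, fun x y z => ?_, fun x y z w => ?_, fun x y z h1 h2 h3 => ?_⟩
  · unfold cir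
    tauto
  · obtain ⟨g, g1, -⟩ := rank h {x, y, z}
    unfold cir lt
    simp only [g1 x (by simp) y (by simp), g1 y (by simp) x (by simp), g1 x (by simp) z (by simp),
      g1 z (by simp) x (by simp), g1 y (by simp) z (by simp), g1 z (by simp) y (by simp)]
    omega
  · obtain ⟨g, g1, -⟩ := rank h {x, y, z, w}
    unfold cir lt
    simp only [g1 x (by simp) y (by simp), g1 y (by simp) x (by simp), g1 x (by simp) z (by simp),
      g1 z (by simp) x (by simp), g1 y (by simp) z (by simp), g1 z (by simp) y (by simp),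
      g1 x (by simp) w (by simp), g1 w (by simp) x (by simp), g1 y (by simp) w (by simp),
      g1 w (by simp) y (by simp), g1 z (by simp) w (by simp), g1 w (by simp) z (by simp)]
    omega
  · obtain ⟨g, g1, g2⟩ := rank h {x, y, z}
    unfold cir lt
    rw [ne_eq, g2 x (by simp) y (by simp)] at h1
    rw [ne_eq, g2 y (by simp) z (by simp)] at h2
    rw [ne_eq, g2 x (by simp) z (by simp)] at h3
    simp only [g1 x (by simp) y (by simp), g1 y (by simp) x (by simp), g1 x (by simp) z (by simp),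
      g1 z (by simp) x (by simp), g1 y (by simp) z (by simp), g1 z (by simp) y (by simp)]
    omega

/-- separation relations -/
theorem vcu_sep (ha : a 0 = 4) : VCu fun x : RS a => ∃ le, Lin le ∧
    (∀ u v w t, r4 x u v w t ↔ sep (cir le) u v w t) ∧ ∀ i, PM le fun t => x (i + 1) t = true := by
  have hg := pm_gen (a := a) (k := 3) (fun x p u v => os (r4 x) (p 0) (p 1) (p 2) u v)
    (fun p u v => (BP.const _).or <| (BP.const _).or <| (BP.const _).and <|
      ((BP.const _).and (bp_r _ _)).or <| (BP.const _).and <| (bp_r _ _).iff (bp_r _ _))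
    (fun x y σ hσ p u v => ?_)
  · refine vcu_mono hg fun x hx => ?_
    obtain ⟨le, h1, h2, h3⟩ := hx
    have hC := circ_le h1
    have h1' : Lin (oc (cir le) 0) := oc_lin hC 0
    have e0 : ∀ u v, rot (fun x => lt le x 0) le u v ↔ oc (cir le) 0 u v := fun u v =>
      (oc_eq h1 u v).symm
    have hA : ∀ u v, le u v → lt le v 0 → lt le u 0 := fun u v h4 h5 h6 =>
      h5 (h1.trans _ _ _ h6 h4)
    have hcc : cir le = cir (oc (cir le) 0) := by
      funext u v w
      exact propext (cir_oc hC 0 u v w)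
    have e2 : r4 x = sep (cir (oc (cir le) 0)) := by
      funext u v w t
      rw [← hcc]
      exact propext (h2 u v w t)
    have hl : ∀ u, oc (cir le) 0 0 u := fun u => Or.inr (Or.inl rfl)
    have hlt : ∀ u, u ≠ 0 → lt (oc (cir le) 0) 0 u := fun u hu h4 => hu (h1'.anti _ _ h4 (hl u))
    obtain ⟨q, r, hq, hqr⟩ : ∃ q r, q ≠ 0 ∧ lt (oc (cir le) 0) q r := by
      rcases h1'.total 1 2 with h4 | h4
      · exact ⟨1, 2, by decide, fun h5 => absurd (h1'.anti _ _ h4 h5) (by decide)⟩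
      · exact ⟨2, 1, by decide, fun h5 => absurd (h1'.anti _ _ h4 h5) (by decide)⟩
    have e : ∀ u v, oc (cir le) 0 u v ↔ os (r4 x) 0 q r u v := by
      intro u v
      rw [e2]
      exact (os_eq h1' hl (hlt q hq) hqr u v).symm
    refine ⟨![0, q, r], lin_cg e h1', fun i => pm_cg e (pm_cg e0 (pm_rot h1 hA ?_))⟩
    cases i with
    | zero =>
      refine r4_iff ha _ (cir le) h2 le h1 ?_
      intro u v w u' v' w' a1 a2 a3 a4 a5 a6
      unfold cir lt
      rw [a2, a4, a5]
      exact id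
    | succ i => exact h3 i
  · have hr : ∀ u v w t, r4 y (σ u) (σ v) (σ w) (σ t) ↔ r4 x u v w t := by
      intro u v w t
      unfold r4
      rw [← comp_qua, hσ]
    show os (r4 y) (σ (p 0)) (σ (p 1)) (σ (p 2)) (σ u) (σ v) ↔
      os (r4 x) (p 0) (p 1) (p 2) u v
    unfold os
    simp only [hr, ne_eq, σ.injective.eq_iff]

/-! ### symmetries and families of arcs -/

/-- the binary relation with the number `i` -/
def r2 (x : RS a) (i u v : ℕ) : Prop := x i (pr u v) = true

/-- unary relations, symmetries of `C`, and hereditary families of arcs of `C` -/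
def Nice (C : ℕ → ℕ → ℕ → Prop) (x : RS a) (i : ℕ) : Prop :=
  a i ≤ 1 ∨ (a i = 2 ∧ (Symm C (r2 x i) ∨ Her C (r2 x i)))

theorem nice_aux {n : ℕ} (hn : n = 2) {le : ℕ → ℕ → Prop} {R : (Fin n → ℕ) → Prop}
    (h : PM le fun t : Fin 2 → ℕ => R (pr (t 0) (t 1))) : PM le R := by
  subst hn
  have e : (fun t : Fin 2 → ℕ => R (pr (t 0) (t 1))) = R := by
    funext t
    congr 1
    funext j
    fin_cases j <;> rfl
  rw [e] at h
  exact h

theorem nice_pm {le : ℕ → ℕ → Prop} (h : Lin le) {x : RS a} {i : ℕ} (hx : Nice (cir le) x i) :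
    PM le fun t => x i t = true := by
  rcases hx with h1 | ⟨h1, h2 | h2⟩
  · exact un_pm h1 _
  · exact nice_aux h1 (symm_pm h h2)
  · exact nice_aux h1 (her_pm h h2)

theorem vcu_circ (ha : a 0 = 3) : VCu fun x : RS a => Circ (r3 x) ∧ ∀ i, Nice (r3 x) x (i + 1) := by
  refine vcu_mono (vcu_cir ha) fun x hx => ?_
  have e : r3 x = cir (oc (r3 x) 0) := by
    funext u v w
    exact propext (cir_oc hx.1 0 u v w)
  refine ⟨oc (r3 x) 0, oc_lin hx.1 0, cir_oc hx.1 0, fun i => nice_pm (oc_lin hx.1 0) ?_⟩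
  rw [← e]
  exact hx.2 i

theorem vcu_sepc (ha : a 0 = 4) : VCu fun x : RS a => ∃ C, Circ C ∧
    (∀ u v w t, r4 x u v w t ↔ sep C u v w t) ∧ ∀ i, Nice C x (i + 1) := by
  refine vcu_mono (vcu_sep ha) fun x hx => ?_
  obtain ⟨C, h1, h2, h3⟩ := hx
  have e : C = cir (oc C 0) := by
    funext u v w
    exact propext (cir_oc h1 0 u v w)
  refine ⟨oc C 0, oc_lin h1 0, ?_, fun i => nice_pm (oc_lin h1 0) ?_⟩
  · rw [← e]
    exact h2
  · rw [← e]
    exact h3 i

end Pool.Agent.H2.CO
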