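import Pool.Agent.H2.LP.Med

set_option autoImplicit false

/-!
Canonical choice of a system of cuts from a compact set of such systems.
-/

namespace Pool.Agent.H2.CO

open Set
open Pool.Agent.W889.VC (BP)

section proj

variable {Y X : Type} [MeasurableSpace Y] [TopologicalSpace X]

/-- countable conjunctions of measurable predicates which are clopen in the second variable -/
def NP (P : Y → X → Prop) : Prop :=
  ∃ (κ : Type) (_ : Countable κ) (Φ : κ → Y → X → Prop), (∀ t y, IsClopen {I | Φ t y I}) ∧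
    (∀ t I, BP fun y => Φ t y I) ∧ ∀ y I, P y I ↔ ∀ t, Φ t y I

theorem NP.base {P : Y → X → Prop} (h1 : ∀ y, IsClopen {I | P y I}) (h2 : ∀ I, BP fun y => P y I) :
    NP P :=
  ⟨Unit, inferInstance, fun _ => P, fun _ => h1, fun _ => h2, fun _ _ => ⟨fun h _ => h, fun h => h ()⟩⟩

theorem NP.all {ι : Type} [Countable ι] {P : ι → Y → X → Prop} (h : ∀ i, NP (P i)) :
    NP fun y I => ∀ i, P i y I := by
  choose κ hκ Φ h1 h2 h3 using h
  refine ⟨Σ i, κ i, inferInstance, fun t => Φ t.1 t.2, fun t => h1 _ _, fun t => h2 _ _,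
    fun y I => ?_⟩
  constructor
  · intro h t
    exact (h3 t.1 y I).1 (h t.1) t.2
  · intro h i
    exact (h3 i y I).2 fun t => h ⟨i, t⟩

theorem NP.congr {P P' : Y → X → Prop} (h : NP P) (h' : ∀ y I, P y I ↔ P' y I) : NP P' := by
  obtain ⟨κ, hκ, Φ, h1, h2, h3⟩ := h
  exact ⟨κ, hκ, Φ, h1, h2, fun y I => (h' y I).symm.trans (h3 y I)⟩

theorem NP.and {P P' : Y → X → Prop} (h : NP P) (h' : NP P') : NP fun y I => P y I ∧ P' y I := by
  have k : ∀ b : Bool, NP (fun y I => if b = true then P y I else P' y I) := by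
    intro b
    cases b with
    | true => exact h.congr fun y I => by simp
    | false => exact h'.congr fun y I => by simp
  exact (NP.all k).congr fun y I => ⟨fun h => ⟨by simpa using h true, by simpa using h false⟩,
    fun h b => by cases b <;> simp [h.1, h.2]⟩

theorem NP.closed {P : Y → X → Prop} (h : NP P) (y : Y) : IsClosed {I | P y I} := by
  obtain ⟨κ, hκ, Φ, h1, h2, h3⟩ := h
  have e : {I | P y I} = ⋂ t, {I | Φ t y I} := by
    ext I
    rw [mem_iInter]
    exact h3 y I
  rw [e]
  exact isClosed_iInter fun t => (h1 t y).isClosed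

/-- the projection along a compact space -/
theorem NP.ex [CompactSpace X] [TopologicalSpace.SeparableSpace X] {P : Y → X → Prop}
    (h : NP P) : BP fun y => ∃ I, P y I := by
  classical
  obtain ⟨κ, hκ, Φ, h1, h2, h3⟩ := h
  rcases isEmpty_or_nonempty X with hX | hX
  · exact (BP.const False).congr fun y => ⟨False.elim, fun ⟨I, _⟩ => hX.elim I⟩
  have key : ∀ y, (∃ I, P y I) ↔ ∀ F : Finset κ, ∃ n : ℕ, ∀ t, t ∈ F →
      Φ t y (TopologicalSpace.denseSeq X n) := by
    intro y
    constructor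
    · rintro ⟨I, hI⟩ F
      have ho : IsOpen (⋂ t ∈ F, {I | Φ t y I}) :=
        isOpen_biInter_finset fun t _ => (h1 t y).isOpen
      have hne : (⋂ t ∈ F, {I | Φ t y I}).Nonempty := by
        refine ⟨I, ?_⟩
        simp only [mem_iInter]
        exact fun t _ => (h3 y I).1 hI t
      obtain ⟨n, hn⟩ := (TopologicalSpace.denseRange_denseSeq X).exists_mem_open ho hne
      simp only [mem_iInter] at hn
      exact ⟨n, fun t ht => hn t ht⟩
    · intro h
      have hc : (⋂ t, {I | Φ t y I}).Nonempty := by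
        refine CompactSpace.iInter_nonempty (fun t => (h1 t y).isClosed) fun s => ?_
        obtain ⟨n, hn⟩ := h s
        refine ⟨TopologicalSpace.denseSeq X n, ?_⟩
        simp only [mem_iInter]
        exact fun t ht => hn t ht
      obtain ⟨I, hI⟩ := hc
      rw [mem_iInter] at hI
      exact ⟨I, (h3 y I).2 hI⟩
  refine BP.congr (p := fun y => ∀ F : Finset κ, ∃ n : ℕ, ∀ t, t ∈ F →
      Φ t y (TopologicalSpace.denseSeq X n)) ?_ fun y => (key y).symm
  exact BP.all fun F => BP.ex fun n => BP.all fun t => (BP.const (t ∈ F)).imp (h2 t _)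

end proj

/-! ### systems of cuts -/

/-- systems of `N` sets -/
abbrev Sy (N : ℕ) : Type := Fin N → ℕ → Bool

variable {N : ℕ}

theorem clo_at (k : Fin N) (u : ℕ) : IsClopen {I : Sy N | I k u = true} := by
  have hc : Continuous fun I : Sy N => I k u := (continuous_apply u).comp (continuous_apply k)
  exact (isClopen_discrete {true}).preimage hc

/-- the systems in `G` whose first `m` sets are chosen -/
def Kx (G : Sy N → Prop) : ℕ → Sy N → Prop
  | 0 => G
  | m + 1 => fun I => Kx G m I ∧ ∀ (h : m < N) (u : ℕ),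
      (I ⟨m, h⟩ u = true ↔ ∃ J, Kx G m J ∧ J ⟨m, h⟩ u = true)

/-- the canonical system -/
def Ic (G : Sy N → Prop) (k : Fin N) (u : ℕ) : Prop := ∃ J, Kx G k.val J ∧ J k u = true

theorem kx_anti (G : Sy N → Prop) {m m' : ℕ} (h : m ≤ m') {I : Sy N} (hI : Kx G m' I) :
    Kx G m I := by
  induction m' with
  | zero =>
    have : m = 0 := Nat.le_zero.1 h
    rw [this]
    exact hI
  | succ n ih =>
    rcases Nat.lt_or_ge n m with h1 | h1
    · have : m = n + 1 := le_antisymm h h1
      rw [this]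
      exact hI
    · exact ih h1 hI.1

theorem kx_ic (G : Sy N → Prop) {I : Sy N} (hI : Kx G N I) (k : Fin N) (u : ℕ) :
    I k u = true ↔ Ic G k u := by
  have h1 : Kx G (k.val + 1) I := kx_anti G k.isLt hI
  exact h1.2 k.isLt u

/-- the sets are initial segments -/
def Ini (le : ℕ → ℕ → Prop) (I : Sy N) : Prop := ∀ k u v, le u v → I k v = true → I k u = true

theorem kx_cl {G : Sy N → Prop} (hG : IsClosed {I | G I}) (m : ℕ) : IsClosed {I | Kx G m I} := by
  induction m with
  | zero => exact hG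
  | succ n ih =>
    refine IsClosed.and ih ?_
    have e : {I : Sy N | ∀ (h : n < N) (u : ℕ),
      (I ⟨n, h⟩ u = true ↔ ∃ J, Kx G n J ∧ J ⟨n, h⟩ u = true)} =
      ⋂ h : n < N, ⋂ u : ℕ, {I : Sy N | I ⟨n, h⟩ u = true ↔
        ∃ J, Kx G n J ∧ J ⟨n, h⟩ u = true} := by
      ext I
      simp only [mem_ofPred_eq, mem_iInter]
    rw [e]
    refine isClosed_iInter fun h => isClosed_iInter fun u => ?_
    by_cases hc : ∃ J, Kx G n J ∧ J ⟨n, h⟩ u = true
    · simp only [hc, iff_true]
      exact (clo_at _ _).isClosed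
    · simp only [hc, iff_false]
      exact (clo_at _ _).compl.isClosed

theorem kx_ne {le : ℕ → ℕ → Prop} (ht : ∀ u v, le u v ∨ le v u) {G : Sy N → Prop}
    (hG : IsClosed {I | G I}) (hi : ∀ I, G I → Ini le I) (hne : ∃ I, G I) (m : ℕ) :
    ∃ I, Kx G m I := by
  classical
  induction m with
  | zero => exact hne
  | succ n ih =>
    by_cases hn : n < N
    · let T : Type := {u : ℕ // ∃ J, Kx G n J ∧ J ⟨n, hn⟩ u = true}
      have hin : ∀ J, Kx G n J → Ini le J := fun J hJ => hi J (kx_anti G (Nat.zero_le n) hJ)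
      have hfin : ∀ s : Finset T, ∃ J, Kx G n J ∧ ∀ u ∈ s, J ⟨n, hn⟩ u.1 = true := by
        intro s
        induction s using Finset.induction_on with
        | empty =>
          obtain ⟨J, hJ⟩ := ih
          exact ⟨J, hJ, fun u hu => absurd hu (Finset.notMem_empty u)⟩
        | insert u s _ ihs =>
          obtain ⟨J, hJ, hJs⟩ := ihs
          obtain ⟨J', hJ', hu'⟩ := u.2
          by_cases hu : J ⟨n, hn⟩ u.1 = true
          · refine ⟨J, hJ, fun v hv => ?_⟩
            rcases Finset.mem_insert.1 hv with rfl | hv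
            · exact hu
            · exact hJs v hv
          · refine ⟨J', hJ', fun v hv => ?_⟩
            rcases Finset.mem_insert.1 hv with rfl | hv
            · exact hu'
            · have h1 := hJs v hv
              rcases ht u.1 v.1 with h2 | h2
              · exact absurd (hin J hJ ⟨n, hn⟩ _ _ h2 h1) hu
              · exact hin J' hJ' ⟨n, hn⟩ _ _ h2 hu'
      have hcpt : IsCompact {I | Kx G n I} := (kx_cl hG n).isCompact
      have hI := hcpt.inter_iInter_nonempty (fun u : T => {I : Sy N | I ⟨n, hn⟩ u.1 = true})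
        (fun u => (clo_at _ _).isClosed) fun s => by
          obtain ⟨J, hJ, hs⟩ := hfin s
          refine ⟨J, hJ, ?_⟩
          simp only [mem_iInter]
          exact fun u hu => hs u hu
      obtain ⟨I, h1, h2⟩ := hI
      rw [mem_iInter] at h2
      exact ⟨I, h1, fun _ u => ⟨fun h => ⟨I, h1, h⟩, fun h => h2 ⟨u, h⟩⟩⟩
    · obtain ⟨J, hJ⟩ := ih
      exact ⟨J, hJ, fun h => absurd h hn⟩

/-- the canonical system belongs to the set -/
theorem ic_mem {le : ℕ → ℕ → Prop} (ht : ∀ u v, le u v ∨ le v u) {G : Sy N → Prop}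
    (hG : IsClosed {I | G I}) (hi : ∀ I, G I → Ini le I) (hne : ∃ I, G I) :
    ∃ I, G I ∧ ∀ k u, I k u = true ↔ Ic G k u := by
  obtain ⟨I, hI⟩ := kx_ne ht hG hi hne N
  exact ⟨I, kx_anti G (Nat.zero_le N) hI, kx_ic G hI⟩

/-! ### measurability -/

theorem np_kx {Y : Type} [MeasurableSpace Y] {G : Y → Sy N → Prop} (hG : NP G) (m : ℕ) :
    NP fun y I => Kx (G y) m I := by
  induction m with
  | zero => exact hG
  | succ n ih =>
    refine NP.and ih ?_
    by_cases h : n < N
    · have key : NP fun y (I : Sy N) => ∀ u : ℕ,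
          (I ⟨n, h⟩ u = true ↔ ∃ J, Kx (G y) n J ∧ J ⟨n, h⟩ u = true) := by
        refine NP.all fun u => ?_
        have hat : NP fun (_ : Y) (I : Sy N) => I ⟨n, h⟩ u = true :=
          NP.base (fun _ => clo_at _ _) fun I => BP.const _
        have hex : BP fun y => ∃ J, Kx (G y) n J ∧ J ⟨n, h⟩ u = true := (ih.and hat).ex
        refine NP.base (fun y => ?_) fun I => (BP.const _).iff hex
        by_cases hc : ∃ J, Kx (G y) n J ∧ J ⟨n, h⟩ u = true
        · simp only [hc, iff_true]
          exact clo_at _ _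
        · simp only [hc, iff_false]
          exact (clo_at _ _).compl
      exact key.congr fun y I => ⟨fun h1 _ => h1, fun h1 => h1 h⟩
    · exact (NP.base (fun _ => isClopen_univ) fun _ => BP.const True).congr
        fun y I => ⟨fun _ h1 => absurd h1 h, fun _ => trivial⟩

theorem bp_ic {Y : Type} [MeasurableSpace Y] {G : Y → Sy N → Prop} (hG : NP G) (k : Fin N)
    (u : ℕ) : BP fun y => Ic (G y) k u := by
  have hat : NP fun (_ : Y) (I : Sy N) => I k u = true :=
    NP.base (fun _ => clo_at _ _) fun I => BP.const _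
  exact ((np_kx hG k.val).and hat).ex

/-! ### invariance -/

/-- the image system -/
def sh (σ : Equiv.Perm ℕ) (I : Sy N) : Sy N := fun k u => I k (σ u)

theorem kx_sh (σ : Equiv.Perm ℕ) {G G' : Sy N → Prop} (h : ∀ I, G' I ↔ G (sh σ I)) (m : ℕ)
    (I : Sy N) : Kx G' m I ↔ Kx G m (sh σ I) := by
  induction m generalizing I with
  | zero => exact h I
  | succ n ih =>
    have e : ∀ (h : n < N) (u : ℕ), (∃ J, Kx G n J ∧ J ⟨n, h⟩ u = true) ↔
        ∃ J, Kx G' n J ∧ J ⟨n, h⟩ (σ u) = true := by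
      intro h u
      constructor
      · rintro ⟨J, h1, h2⟩
        refine ⟨sh σ⁻¹ J, ?_, ?_⟩
        · rw [ih]
          have : sh σ (sh σ⁻¹ J) = J := by
            funext k v
            show J k (σ⁻¹ (σ v)) = J k v
            simp
          rw [this]
          exact h1
        · show J ⟨n, h⟩ (σ⁻¹ (σ u)) = true
          simpa using h2
      · rintro ⟨J, h1, h2⟩
        exact ⟨sh σ J, (ih J).1 h1, h2⟩
    show (Kx G' n I ∧ _) ↔ (Kx G n (sh σ I) ∧ _)
    rw [ih]
    refine and_congr Iff.rfl ?_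
    constructor
    · intro h1 hn u
      rw [e]
      exact h1 hn (σ u)
    · intro h1 hn u
      have h2 := h1 hn (σ⁻¹ u)
      rw [e] at h2
      have h3 : σ (σ⁻¹ u) = u := σ.apply_symm_apply u
      rw [h3] at h2
      have h4 : sh σ I ⟨n, hn⟩ (σ⁻¹ u) = I ⟨n, hn⟩ u := by
        show I ⟨n, hn⟩ (σ (σ⁻¹ u)) = _
        rw [h3]
      rw [h4] at h2
      exact h2

theorem ic_sh (σ : Equiv.Perm ℕ) {G G' : Sy N → Prop} (h : ∀ I, G' I ↔ G (sh σ I)) (k : Fin N)
    (u : ℕ) : Ic G' k (σ u) ↔ Ic G k u := by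
  constructor
  · rintro ⟨J, h1, h2⟩
    exact ⟨sh σ J, (kx_sh σ h _ J).1 h1, h2⟩
  · rintro ⟨J, h1, h2⟩
    refine ⟨sh σ⁻¹ J, ?_, ?_⟩
    · rw [kx_sh σ h]
      have : sh σ (sh σ⁻¹ J) = J := by
        funext k v
        show J k (σ⁻¹ (σ v)) = J k v
        simp
      rw [this]
      exact h1
    · show J k (σ⁻¹ (σ u)) = true
      simpa using h2

end Pool.Agent.H2.CO
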