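import Pool.Agent.H2.CO.Cpt

set_option autoImplicit false

/-!
Relations which are piecewise closed under the median.
-/

namespace Pool.Agent.H2.CO

open Set
open Pool.Agent.W889.VC (BP)
open Pool.Agent.H2.LP (Lin md mn mx minimum maximum Cl3 le_md md_le le_mn mn_le le_mx mx_le)

variable {N n : ℕ}

/-- the same order type over the sets of the system -/
def Sm (le : ℕ → ℕ → Prop) (I : Sy N) (u v : Fin n → ℕ) : Prop :=
  (∀ j l, le (u j) (u l) ↔ le (v j) (v l)) ∧ ∀ k j, I k (u j) = true ↔ I k (v j) = true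

/-- the system of cuts `I` is good for the relation `R` -/
def Good (le : ℕ → ℕ → Prop) (R : (Fin n → ℕ) → Prop) (I : Sy N) : Prop :=
  Ini le I ∧ ∀ u v w, R u → R v → R w → Sm le I u v → Sm le I u w →
    R fun j => md le (u j) (v j) (w j)

/-! ### the median is one of its arguments -/

theorem mn_or (le : ℕ → ℕ → Prop) (u v : ℕ) : mn le u v = u ∨ mn le u v = v := by
  unfold mn minimum
  split_ifs
  · exact Or.inl rfl
  · exact Or.inr rfl

theorem mx_or (le : ℕ → ℕ → Prop) (u v : ℕ) : mx le u v = u ∨ mx le u v = v := by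
  unfold mx maximum
  split_ifs
  · exact Or.inr rfl
  · exact Or.inl rfl

theorem md_or (le : ℕ → ℕ → Prop) (u v w : ℕ) : md le u v w = u ∨ md le u v w = v ∨
    md le u v w = w := by
  unfold md
  rcases mx_or le (mn le u v) (mn le (mx le u v) w) with h | h
  · rw [h]
    rcases mn_or le u v with h | h
    · exact Or.inl h
    · exact Or.inr (Or.inl h)
  · rw [h]
    rcases mn_or le (mx le u v) w with h | h
    · rw [h]
      rcases mx_or le u v with h | h
      · exact Or.inl h
      · exact Or.inr (Or.inl h)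
    · exact Or.inr (Or.inr h)

/-- the median of tuples with the same type has this type -/
theorem md_ty {le : ℕ → ℕ → Prop} (h : Lin le) {a b c a' b' c' : ℕ} (h1 : le a a' ↔ le b b')
    (h2 : le a a' ↔ le c c') : le (md le a b c) (md le a' b' c') ↔ le a a' := by
  by_cases k : le a a'
  · have kb := h1.1 k
    have kc := h2.1 k
    refine ⟨fun _ => k, fun _ => ?_⟩
    have e1 := (le_md h (md le a b c) a b c).1 (h.refl _)
    rw [le_md h]
    have t1 : le (md le a b c) a → le (md le a b c) a' := fun x => h.trans _ _ _ x k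
    have t2 : le (md le a b c) b → le (md le a b c) b' := fun x => h.trans _ _ _ x kb
    have t3 : le (md le a b c) c → le (md le a b c) c' := fun x => h.trans _ _ _ x kc
    tauto
  · have kb : ¬ le b b' := fun e => k (h1.2 e)
    have kc : ¬ le c c' := fun e => k (h2.2 e)
    have ka' := (h.total a a').resolve_left k
    have kb' := (h.total b b').resolve_left kb
    have kc' := (h.total c c').resolve_left kc
    refine ⟨fun e => ?_, fun e => absurd e k⟩
    exfalso
    rcases md_or le a b c with e1 | e1 | e1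
    · rw [e1, le_md h] at e
      have e2 := (md_le h a a b c).1 (by rw [e1]; exact h.refl _)
      have e3 := (le_md h a a b c).1 (by rw [e1]; exact h.refl _)
      have q2 : le a b' → ¬ le b a := fun x y => kb (h.trans _ _ _ y x)
      have q3 : le a c' → ¬ le c a := fun x y => kc (h.trans _ _ _ y x)
      tauto
    · rw [e1, le_md h] at e
      have e2 := (md_le h b a b c).1 (by rw [e1]; exact h.refl _)
      have e3 := (le_md h b a b c).1 (by rw [e1]; exact h.refl _)
      have q2 : le b a' → ¬ le a b := fun x y => k (h.trans _ _ _ y x)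
      have q3 : le b c' → ¬ le c b := fun x y => kc (h.trans _ _ _ y x)
      tauto
    · rw [e1, le_md h] at e
      have e2 := (md_le h c a b c).1 (by rw [e1]; exact h.refl _)
      have e3 := (le_md h c a b c).1 (by rw [e1]; exact h.refl _)
      have q2 : le c a' → ¬ le a c := fun x y => k (h.trans _ _ _ y x)
      have q3 : le c b' → ¬ le b c := fun x y => kb (h.trans _ _ _ y x)
      tauto

/-! ### measurability -/

section meas

variable {Y : Type} [MeasurableSpace Y] {o : Y → ℕ → ℕ → Prop} (ho : ∀ u v, BP fun y => o y u v)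

include ho

theorem bp_mn {f g : Y → ℕ} (hf : ∀ t, BP fun y => f y = t) (hg : ∀ t, BP fun y => g y = t)
    (t : ℕ) : BP fun y => mn (o y) (f y) (g y) = t := by
  have h1 : BP fun y => ∃ a b : ℕ, f y = a ∧ g y = b ∧ ((o y a b ∧ a = t) ∨ (¬ o y a b ∧ b = t)) :=
    BP.ex fun a => BP.ex fun b => (hf a).and <| (hg b).and <|
      ((ho a b).and (BP.const _)).or ((ho a b).not.and (BP.const _))
  refine h1.congr fun y => ?_
  unfold mn minimum
  split_ifs with h
  · constructor
    · rintro ⟨a, b, rfl, rfl, ⟨-, h2⟩ | ⟨h2, -⟩⟩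
      · exact h2
      · exact absurd h h2
    · intro h2
      exact ⟨_, _, rfl, rfl, Or.inl ⟨h, h2⟩⟩
  · constructor
    · rintro ⟨a, b, rfl, rfl, ⟨h2, -⟩ | ⟨-, h2⟩⟩
      · exact absurd h2 h
      · exact h2
    · intro h2
      exact ⟨_, _, rfl, rfl, Or.inr ⟨h, h2⟩⟩

theorem bp_mx {f g : Y → ℕ} (hf : ∀ t, BP fun y => f y = t) (hg : ∀ t, BP fun y => g y = t)
    (t : ℕ) : BP fun y => mx (o y) (f y) (g y) = t := by
  have h1 : BP fun y => ∃ a b : ℕ, f y = a ∧ g y = b ∧ ((o y a b ∧ b = t) ∨ (¬ o y a b ∧ a = t)) :=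
    BP.ex fun a => BP.ex fun b => (hf a).and <| (hg b).and <|
      ((ho a b).and (BP.const _)).or ((ho a b).not.and (BP.const _))
  refine h1.congr fun y => ?_
  unfold mx maximum
  split_ifs with h
  · constructor
    · rintro ⟨a, b, rfl, rfl, ⟨-, h2⟩ | ⟨h2, -⟩⟩
      · exact h2
      · exact absurd h h2
    · intro h2
      exact ⟨_, _, rfl, rfl, Or.inl ⟨h, h2⟩⟩
  · constructor
    · rintro ⟨a, b, rfl, rfl, ⟨h2, -⟩ | ⟨-, h2⟩⟩
      · exact absurd h2 h
      · exact h2
    · intro h2
      exact ⟨_, _, rfl, rfl, Or.inr ⟨h, h2⟩⟩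

theorem bp_md (a b c t : ℕ) : BP fun y => md (o y) a b c = t := by
  unfold md
  have hc : ∀ d t : ℕ, BP fun _ : Y => d = t := fun d t => BP.const _
  exact bp_mx ho (bp_mn ho (hc a) (hc b)) (bp_mn ho (bp_mx ho (hc a) (hc b)) (hc c)) t

theorem np_good {R : Y → (Fin n → ℕ) → Prop} (hR : ∀ v, BP fun y => R y v) :
    NP fun y (I : Sy N) => Good (o y) (R y) I := by
  refine NP.and ?_ ?_
  · refine NP.all fun k => NP.all fun u => NP.all fun v => NP.base (fun y => ?_) fun I =>
      (ho u v).imp (BP.const _)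
    by_cases h : o y u v
    · simp only [h, true_imp_iff]
      have e : {I : Sy N | I k v = true → I k u = true} =
          {I : Sy N | I k v = true}ᶜ ∪ {I : Sy N | I k u = true} := by
        ext I
        simp only [mem_ofPred_eq, mem_union, mem_compl_iff]
        tauto
      rw [e]
      exact (clo_at _ _).compl.union (clo_at _ _)
    · simp only [h, false_imp_iff]
      exact isClopen_univ
  · refine NP.all fun u => NP.all fun v => NP.all fun w => ?_
    have hs : ∀ v w : Fin n → ℕ, IsClopen {I : Sy N | ∀ k j, I k (v j) = true ↔ I k (w j) = true} := by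
      intro v w
      have e : {I : Sy N | ∀ k j, I k (v j) = true ↔ I k (w j) = true} =
          ⋂ k, ⋂ j, {I : Sy N | I k (v j) = true ↔ I k (w j) = true} := by
        ext I
        simp only [mem_ofPred_eq, mem_iInter]
      rw [e]
      refine isClopen_iInter_of_finite fun k => isClopen_iInter_of_finite fun j => ?_
      have e : {I : Sy N | I k (v j) = true ↔ I k (w j) = true} =
          ({I : Sy N | I k (v j) = true} ∩ {I : Sy N | I k (w j) = true}) ∪
          ({I : Sy N | I k (v j) = true}ᶜ ∩ {I : Sy N | I k (w j) = true}ᶜ) := by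
        ext I
        simp only [mem_ofPred_eq, mem_union, mem_inter_iff, mem_compl_iff]
        tauto
      rw [e]
      exact ((clo_at _ _).inter (clo_at _ _)).union ((clo_at _ _).compl.inter (clo_at _ _).compl)
    have hRm : BP fun y => R y fun j => md (o y) (u j) (v j) (w j) := by
      have h1 : BP fun y => ∃ t : Fin n → ℕ, (∀ j, md (o y) (u j) (v j) (w j) = t j) ∧ R y t :=
        BP.ex fun t => (BP.all fun j => bp_md ho _ _ _ _).and (hR t)
      refine h1.congr fun y => ?_
      constructor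
      · rintro ⟨t, h2, h3⟩
        have : t = fun j => md (o y) (u j) (v j) (w j) := funext fun j => (h2 j).symm
        rw [← this]
        exact h3
      · intro h2
        exact ⟨_, fun _ => rfl, h2⟩
    have hty : ∀ v w : Fin n → ℕ, BP fun y => ∀ j l, o y (v j) (v l) ↔ o y (w j) (w l) :=
      fun v w => BP.all fun j => BP.all fun l => (ho _ _).iff (ho _ _)
    refine NP.base (fun y => ?_) fun I => ?_
    · by_cases h : R y u ∧ R y v ∧ R y w ∧ (∀ j l, o y (u j) (u l) ↔ o y (v j) (v l)) ∧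
        (∀ j l, o y (u j) (u l) ↔ o y (w j) (w l)) ∧ ¬ R y fun j => md (o y) (u j) (v j) (w j)
      · have e : {I : Sy N | R y u → R y v → R y w → Sm (o y) I u v → Sm (o y) I u w →
            R y fun j => md (o y) (u j) (v j) (w j)} =
            ({I : Sy N | ∀ k j, I k (u j) = true ↔ I k (v j) = true} ∩
              {I : Sy N | ∀ k j, I k (u j) = true ↔ I k (w j) = true})ᶜ := by
          ext I
          obtain ⟨a1, a2, a3, a4, a5, a6⟩ := h
          simp only [mem_ofPred_eq, mem_compl_iff, mem_inter_iff]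
          constructor
          · rintro h1 ⟨h2, h3⟩
            exact a6 (h1 a1 a2 a3 ⟨a4, h2⟩ ⟨a5, h3⟩)
          · rintro h1 - - - h2 h3
            exact absurd ⟨h2.2, h3.2⟩ h1
        rw [e]
        exact ((hs _ _).inter (hs _ _)).compl
      · have e : {I : Sy N | R y u → R y v → R y w → Sm (o y) I u v → Sm (o y) I u w →
            R y fun j => md (o y) (u j) (v j) (w j)} = univ := by
          ext I
          simp only [mem_ofPred_eq, mem_univ, iff_true]
          intro a1 a2 a3 a4 a5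
          by_contra a6
          exact h ⟨a1, a2, a3, a4.1, a5.1, a6⟩
        rw [e]
        exact isClopen_univ
    · exact (hR u).imp <| (hR v).imp <| (hR w).imp <| ((hty u v).and (BP.const _)).imp <|
        ((hty u w).and (BP.const _)).imp hRm

end meas

/-! ### invariance -/

theorem mn_sh {le le' : ℕ → ℕ → Prop} {σ : Equiv.Perm ℕ} (h : ∀ u v, le' (σ u) (σ v) ↔ le u v)
    (u v : ℕ) : mn le' (σ u) (σ v) = σ (mn le u v) := by
  unfold mn minimum
  by_cases k : le u v
  · rw [if_pos k, if_pos ((h u v).2 k)]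
  · rw [if_neg k, if_neg fun k' => k ((h u v).1 k')]

theorem mx_sh {le le' : ℕ → ℕ → Prop} {σ : Equiv.Perm ℕ} (h : ∀ u v, le' (σ u) (σ v) ↔ le u v)
    (u v : ℕ) : mx le' (σ u) (σ v) = σ (mx le u v) := by
  unfold mx maximum
  by_cases k : le u v
  · rw [if_pos k, if_pos ((h u v).2 k)]
  · rw [if_neg k, if_neg fun k' => k ((h u v).1 k')]

theorem md_sh {le le' : ℕ → ℕ → Prop} {σ : Equiv.Perm ℕ} (h : ∀ u v, le' (σ u) (σ v) ↔ le u v)
    (u v w : ℕ) : md le' (σ u) (σ v) (σ w) = σ (md le u v w) := by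
  unfold md
  rw [mn_sh h, mx_sh h, mn_sh h, mx_sh h]

theorem good_sh {le le' : ℕ → ℕ → Prop} {σ : Equiv.Perm ℕ} (h : ∀ u v, le' (σ u) (σ v) ↔ le u v)
    {R R' : (Fin n → ℕ) → Prop} (hR : ∀ v, R' (⇑σ ∘ v) ↔ R v) (I : Sy N) :
    Good le' R' I ↔ Good le R (sh σ I) := by
  have e : ∀ v : Fin n → ℕ, ⇑σ ∘ (⇑σ⁻¹ ∘ v) = v := fun v => funext fun j => σ.apply_symm_apply _
  have hsm : ∀ u v : Fin n → ℕ, Sm le' I (⇑σ ∘ u) (⇑σ ∘ v) ↔ Sm le (sh σ I) u v := by
    intro u v
    unfold Sm
    refine and_congr ?_ Iff.rfl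
    refine forall_congr' fun j => forall_congr' fun l => ?_
    show (le' (σ (u j)) (σ (u l)) ↔ le' (σ (v j)) (σ (v l))) ↔ _
    rw [h, h]
  constructor
  · rintro ⟨h1, h2⟩
    refine ⟨fun k u v huv hv => h1 k _ _ ((h u v).2 huv) hv, fun u v w hu hv hw k1 k2 => ?_⟩
    have h3 := h2 (⇑σ ∘ u) (⇑σ ∘ v) (⇑σ ∘ w) ((hR _).2 hu) ((hR _).2 hv) ((hR _).2 hw)
      ((hsm _ _).2 k1) ((hsm _ _).2 k2)
    have e3 : (fun j => md le' ((⇑σ ∘ u) j) ((⇑σ ∘ v) j) ((⇑σ ∘ w) j)) =
        ⇑σ ∘ fun j => md le (u j) (v j) (w j) := funext fun j => md_sh h _ _ _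
    rw [e3] at h3
    exact (hR _).1 h3
  · rintro ⟨h1, h2⟩
    refine ⟨fun k u v huv hv => ?_, fun u v w hu hv hw k1 k2 => ?_⟩
    · have h3 := h1 k (σ⁻¹ u) (σ⁻¹ v) ((h _ _).1 (by
        rw [show σ (σ⁻¹ u) = u from σ.apply_symm_apply u,
          show σ (σ⁻¹ v) = v from σ.apply_symm_apply v]
        exact huv)) (by
        show I k (σ (σ⁻¹ v)) = true
        rw [show σ (σ⁻¹ v) = v from σ.apply_symm_apply v]
        exact hv)
      have h4 : I k (σ (σ⁻¹ u)) = true := h3
      rwa [show σ (σ⁻¹ u) = u from σ.apply_symm_apply u] at h4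
    · have h3 := h2 (⇑σ⁻¹ ∘ u) (⇑σ⁻¹ ∘ v) (⇑σ⁻¹ ∘ w) ((hR _).1 (by rw [e]; exact hu))
        ((hR _).1 (by rw [e]; exact hv)) ((hR _).1 (by rw [e]; exact hw))
        ((hsm _ _).1 (by rw [e, e]; exact k1)) ((hsm _ _).1 (by rw [e, e]; exact k2))
      rw [← hR] at h3
      have e3 : (⇑σ ∘ fun j => md le ((⇑σ⁻¹ ∘ u) j) ((⇑σ⁻¹ ∘ v) j) ((⇑σ⁻¹ ∘ w) j)) =
          fun j => md le' (u j) (v j) (w j) := by
        funext j
        show σ (md le (σ⁻¹ (u j)) (σ⁻¹ (v j)) (σ⁻¹ (w j))) = _
        rw [← md_sh h]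
        simp
      rw [e3] at h3
      exact h3

/-! ### pieces -/

/-- the pieces are closed under the median -/
theorem cl_piece {le : ℕ → ℕ → Prop} (h : Lin le) {R : (Fin n → ℕ) → Prop} {I : Sy N}
    (hI : Good le R I) (τ : Fin n → Fin n → Prop) (ρ : Fin N → Fin n → Prop) :
    Cl3 (md le) fun v => R v ∧ (∀ j l, le (v j) (v l) ↔ τ j l) ∧
      ∀ k j, I k (v j) = true ↔ ρ k j := by
  rintro u v w ⟨u1, u2, u3⟩ ⟨v1, v2, v3⟩ ⟨w1, w2, w3⟩
  refine ⟨hI.2 u v w u1 v1 w1 ⟨fun j l => (u2 j l).trans (v2 j l).symm,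
    fun k j => (u3 k j).trans (v3 k j).symm⟩ ⟨fun j l => (u2 j l).trans (w2 j l).symm,
    fun k j => (u3 k j).trans (w3 k j).symm⟩, fun j l => ?_, fun k j => ?_⟩
  · rw [← u2 j l]
    exact md_ty h ((u2 j l).trans (v2 j l).symm) ((u2 j l).trans (w2 j l).symm)
  · show I k (md le (u j) (v j) (w j)) = true ↔ _
    rcases md_or le (u j) (v j) (w j) with e | e | e
    · rw [e]
      exact u3 k j
    · rw [e]
      exact v3 k j
    · rw [e]
      exact w3 k j

end Pool.Agent.H2.CO
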