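import Pool.Agent.H2.CO.Asm

set_option autoImplicit false

/-!
The dichotomy with perfect sets.
-/

namespace Pool.Agent.H2.CO

open Set MeasureTheory Filter Topology
open Pool.Agent.H533R2.VO (RS VC)
open Pool.Agent.H533R2.VS (US VCu vs_plain)

/-- the range of a continuous injective function on the Cantor space is perfect -/
theorem perfect_range {X : Type} [TopologicalSpace X] [T2Space X] {g : (ℕ → Bool) → X}
    (hg : Continuous g) (hi : Function.Injective g) : Perfect (range g) := by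
  refine ⟨(isCompact_range hg).isClosed, ?_⟩
  rintro _ ⟨c, rfl⟩
  rw [accPt_iff_nhds]
  intro U hU
  have h1 : g ⁻¹' U ∈ 𝓝 c := hg.continuousAt hU
  have h2 : Tendsto (fun n : ℕ => Function.update c n (!(c n))) atTop (𝓝 c) := by
    rw [tendsto_pi_nhds]
    intro i
    refine tendsto_const_nhds.congr' ?_
    filter_upwards [eventually_gt_atTop i] with n hn
    rw [Function.update_of_ne (ne_of_lt hn)]
  obtain ⟨n, hn⟩ := (h2.eventually h1).exists
  refine ⟨g (Function.update c n (!(c n))), ⟨hn, mem_range_self _⟩, fun h3 => ?_⟩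
  have h4 := congrFun (hi h3) n
  rw [Function.update_self] at h4
  cases hc : c n <;> rw [hc] at h4 <;> exact absurd h4 (by decide)

/-- the dichotomy of the frozen statement -/
theorem strong {a : ℕ → ℕ} {V : RS a → Prop} (hV : VCu V) (B : Set (RS a))
    (hB : @MeasurableSet (RS a) (borel (RS a)) B)
    (hi : ∀ x y : RS a, (∃ σ : Equiv.Perm ℕ, ∀ (n : ℕ) (t : Fin (a n) → ℕ),
      y n (fun i => σ (t i)) = x n t) → x ∈ B → y ∈ B) (hBV : ∀ x ∈ B, V x) :
    (∃ C : Set (RS a), C.Countable ∧ ∀ x ∈ B, ∃ c ∈ C, ∃ σ : Equiv.Perm ℕ,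
      ∀ (n : ℕ) (t : Fin (a n) → ℕ), c n (fun i => σ (t i)) = x n t) ∨
    (∃ P : Set (RS a), P.Nonempty ∧ Perfect P ∧ P ⊆ B ∧ ∀ x ∈ P, ∀ y ∈ P,
      (∃ σ : Equiv.Perm ℕ, ∀ (n : ℕ) (t : Fin (a n) → ℕ), y n (fun i => σ (t i)) = x n t) →
        x = y) := by
  have h0 : ∀ i, BorelSpace ((Fin (a i) → ℕ) → Bool) := fun i => inferInstance
  have s0 : ∀ i, SecondCountableTopology ((Fin (a i) → ℕ) → Bool) := fun i => inferInstance
  have hb : BorelSpace (RS a) := Pi.borelSpace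
  have hB' : MeasurableSet B := by
    rw [hb.measurable_eq]
    exact hB
  have hsym : ∀ x y : RS a, (∃ σ : Equiv.Perm ℕ, ∀ (n : ℕ) (t : Fin (a n) → ℕ),
      y n (⇑σ ∘ t) = x n t) → (∃ σ : Equiv.Perm ℕ, ∀ (n : ℕ) (t : Fin (a n) → ℕ),
      x n (⇑σ ∘ t) = y n t) := by
    rintro x y ⟨σ, h⟩
    refine ⟨σ⁻¹, fun n t => ?_⟩
    have h1 := h n (⇑σ⁻¹ ∘ t)
    have e : ⇑σ ∘ (⇑σ⁻¹ ∘ t) = t := funext fun j => σ.apply_symm_apply _
    rw [e] at h1
    exact h1.symm
  rcases vs_plain a V hV B hB' (fun x y h => ⟨hi x y h, hi y x (hsym x y h)⟩) hBV with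
    ⟨f, hf⟩ | ⟨g, g1, g2, g3⟩
  · left
    refine ⟨range f, countable_range f, fun x hx => ?_⟩
    obtain ⟨n, hn⟩ := hf x hx
    exact ⟨f n, mem_range_self n, hsym _ _ hn⟩
  · right
    refine ⟨range g, range_nonempty g, perfect_range g1 fun c d h => g3 c d ?_, ?_, ?_⟩
    · rw [h]
      exact ⟨1, fun _ _ => rfl⟩
    · rintro _ ⟨c, rfl⟩
      exact g2 c
    · rintro _ ⟨c, rfl⟩ _ ⟨d, rfl⟩ h
      rw [g3 c d h]

end Pool.Agent.H2.CO
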