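import Pool.Agent.H2.CO.Rot

set_option autoImplicit false

/-!
Betweenness, circular order and separation of a linear order, and the recovery of the order from
parameters.
-/

namespace Pool.Agent.H2.CO

open Pool.Agent.H2.LP (Lin md)

/-- the strict order -/
def lt (le : ℕ → ℕ → Prop) (u v : ℕ) : Prop := ¬ le v u

/-- betweenness -/
def bet (le : ℕ → ℕ → Prop) (x y z : ℕ) : Prop :=
  (lt le x y ∧ lt le y z) ∨ (lt le z y ∧ lt le y x)

/-- the circular order -/
def cir (le : ℕ → ℕ → Prop) (x y z : ℕ) : Prop :=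
  (lt le x y ∧ lt le y z) ∨ (lt le y z ∧ lt le z x) ∨ (lt le z x ∧ lt le x y)

/-- separation of a circular order: `x, y` separate `z, w` -/
def sep (C : ℕ → ℕ → ℕ → Prop) (x y z w : ℕ) : Prop :=
  (C x z y ∧ C y w x) ∨ (C x w y ∧ C y z x)

/-- the order from the betweenness relation and two points -/
def ob (B : ℕ → ℕ → ℕ → Prop) (p q u v : ℕ) : Prop :=
  u = v ∨ (u = q ∧ B p q v) ∨ (u ≠ q ∧ (B v u q ↔ B p q u))

/-- the order from the circular order and a point -/
def oc (C : ℕ → ℕ → ℕ → Prop) (p u v : ℕ) : Prop := u = v ∨ u = p ∨ C p u v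

/-- the order from the separation relation and three points -/
def os (S : ℕ → ℕ → ℕ → ℕ → Prop) (p q r u v : ℕ) : Prop :=
  u = v ∨ u = p ∨ (v ≠ p ∧ ((u = r ∧ S p r q v) ∨ (u ≠ r ∧ (S p u v r ↔ S p r u q))))

section rec'

set_option linter.unusedSimpArgs false

variable {le : ℕ → ℕ → Prop} (h : Lin le)

include h

theorem ob_eq {p q : ℕ} (hpq : lt le p q) (u v : ℕ) : ob (bet le) p q u v ↔ le u v := by
  classical
  obtain ⟨g, g1, g2⟩ := rank h {p, q, u, v}
  unfold ob bet lt
  unfold lt at hpq
  rw [g1 q (by simp) p (by simp)] at hpq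
  simp only [g1 q (by simp) p (by simp), g1 p (by simp) q (by simp), g1 u (by simp) v (by simp),
    g1 v (by simp) u (by simp), g1 q (by simp) u (by simp), g1 u (by simp) q (by simp),
    g1 q (by simp) v (by simp), g1 v (by simp) q (by simp), g1 p (by simp) u (by simp),
    g1 u (by simp) p (by simp), g1 p (by simp) v (by simp), g1 v (by simp) p (by simp),
    g2 u (by simp) v (by simp), g2 u (by simp) q (by simp), ne_eq]
  omega

theorem oc_eq {p : ℕ} (u v : ℕ) : oc (cir le) p u v ↔ rot (fun x => lt le x p) le u v := by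
  classical
  obtain ⟨g, g1, g2⟩ := rank h {p, u, v}
  unfold oc cir rot lt
  simp only [g1 u (by simp) v (by simp),
    g1 v (by simp) u (by simp), g1 p (by simp) u (by simp),
    g1 u (by simp) p (by simp), g1 p (by simp) v (by simp), g1 v (by simp) p (by simp),
    g2 u (by simp) v (by simp), g2 u (by simp) p (by simp)]
  omega

theorem os_eq {p q r : ℕ} (hp : ∀ u, le p u) (hpq : lt le p q) (hqr : lt le q r) (u v : ℕ) :
    os (sep (cir le)) p q r u v ↔ le u v := by
  classical
  obtain ⟨g, g1, g2⟩ := rank h {p, q, r, u, v}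
  have h1 := (g1 p (by simp) u (by simp)).1 (hp u)
  have h2 := (g1 p (by simp) v (by simp)).1 (hp v)
  unfold os sep cir lt
  unfold lt at hpq hqr
  rw [g1 q (by simp) p (by simp)] at hpq
  rw [g1 r (by simp) q (by simp)] at hqr
  simp only [g1 q (by simp) p (by simp), g1 p (by simp) q (by simp), g1 u (by simp) v (by simp),
    g1 v (by simp) u (by simp), g1 q (by simp) u (by simp), g1 u (by simp) q (by simp),
    g1 q (by simp) v (by simp), g1 v (by simp) q (by simp), g1 p (by simp) u (by simp),
    g1 u (by simp) p (by simp), g1 p (by simp) v (by simp), g1 v (by simp) p (by simp),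
    g1 r (by simp) p (by simp), g1 p (by simp) r (by simp), g1 r (by simp) u (by simp),
    g1 u (by simp) r (by simp), g1 r (by simp) v (by simp), g1 v (by simp) r (by simp),
    g1 r (by simp) q (by simp), g1 q (by simp) r (by simp),
    g2 u (by simp) v (by simp), g2 u (by simp) p (by simp), g2 v (by simp) p (by simp),
    g2 u (by simp) r (by simp), ne_eq]
  rcases lt_trichotomy (g u) (g v) with a1 | a1 | a1 <;>
    rcases lt_trichotomy (g u) (g r) with a2 | a2 | a2 <;>
    rcases lt_trichotomy (g v) (g r) with a3 | a3 | a3 <;>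
    rcases lt_trichotomy (g u) (g q) with a4 | a4 | a4 <;>
    rcases lt_trichotomy (g v) (g q) with a5 | a5 | a5 <;>
    rcases lt_or_eq_of_le h1 with a6 | a6 <;>
    rcases lt_or_eq_of_le h2 with a7 | a7 <;>
    omega

end rec'

end Pool.Agent.H2.CO
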