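import Pool.Agent.H2.CO.Gd

set_option autoImplicit false

/-!
Rotation of a linear order, and comparisons of finitely many elements.
-/

namespace Pool.Agent.H2.CO

open Pool.Agent.H2.LP (Lin md mn mx minimum maximum op md_op)

variable {n : ℕ}

/-- a relation is piecewise closed under the median -/
def PM (le : ℕ → ℕ → Prop) (R : (Fin n → ℕ) → Prop) : Prop := ∃ N, ∃ I : Sy N, Good le R I

/-- systems with any finite index type -/
theorem pm_fin {ι : Type} [Finite ι] {le : ℕ → ℕ → Prop} {R : (Fin n → ℕ) → Prop}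
    (J : ι → ℕ → Prop) (h1 : ∀ k u v, le u v → J k v → J k u)
    (h2 : ∀ u v w, R u → R v → R w → (∀ j l, le (u j) (u l) ↔ le (v j) (v l)) →
      (∀ j l, le (u j) (u l) ↔ le (w j) (w l)) → (∀ k j, J k (u j) ↔ J k (v j)) →
      (∀ k j, J k (u j) ↔ J k (w j)) → R fun j => md le (u j) (v j) (w j)) : PM le R := by
  classical
  obtain ⟨N, ⟨e⟩⟩ := Finite.exists_equiv_fin ι
  refine ⟨N, fun k u => decide (J (e.symm k) u), ⟨fun k u v huv hv => ?_,
    fun u v w hu hv hw k1 k2 => ?_⟩⟩
  · rw [decide_eq_true_iff] at hv ⊢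
    exact h1 _ _ _ huv hv
  · refine h2 u v w hu hv hw k1.1 k2.1 (fun k j => ?_) fun k j => ?_
    · have h := k1.2 (e k) j
      rw [decide_eq_true_iff, decide_eq_true_iff, e.symm_apply_apply] at h
      exact h
    · have h := k2.2 (e k) j
      rw [decide_eq_true_iff, decide_eq_true_iff, e.symm_apply_apply] at h
      exact h

set_option linter.unusedSimpArgs false in
/-- the median depends only on the comparisons of its arguments -/
theorem md_cgr {le le' : ℕ → ℕ → Prop} {a b c : ℕ} (h1 : le a b ↔ le' a b) (h2 : le b a ↔ le' b a)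
    (h3 : le a c ↔ le' a c) (h5 : le b c ↔ le' b c) : md le a b c = md le' a b c := by
  classical
  unfold md mx mn maximum minimum
  by_cases k1 : le a b <;> by_cases k3 : le a c <;> by_cases k5 : le b c <;>
    simp only [← h1, ← h2, ← h3, ← h5, k1, k3, k5, if_true, if_false]

/-- the rotated order: first the complement of `A`, then `A` -/
def rot (A : ℕ → Prop) (le : ℕ → ℕ → Prop) (u v : ℕ) : Prop :=
  (¬ A u ∧ A v) ∨ ((A u ↔ A v) ∧ le u v)

theorem rot_lin (A : ℕ → Prop) {le : ℕ → ℕ → Prop} (h : Lin le) : Lin (rot A le) := by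
  refine ⟨fun u => Or.inr ⟨Iff.rfl, h.refl u⟩, fun u v => ?_, fun u v w => ?_, fun u v => ?_⟩
  · rintro (h1 | h1) (h2 | h2)
    · exact absurd h1.2 h2.1
    · exact absurd (h2.1.1 h1.2) h1.1
    · exact absurd (h1.1.1 h2.2) h2.1
    · exact h.anti _ _ h1.2 h2.2
  · unfold rot
    have := h.trans u v w
    tauto
  · unfold rot
    have := h.total u v
    tauto

/-- rotation preserves the piecewise closed relations -/
theorem pm_rot {A : ℕ → Prop} {le : ℕ → ℕ → Prop} (h : Lin le) (hA : ∀ u v, le u v → A v → A u)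
    {R : (Fin n → ℕ) → Prop} (hR : PM le R) : PM (rot A le) R := by
  obtain ⟨N, I, hI1, hI2⟩ := hR
  refine pm_fin (ι := Option (Fin N ⊕ Fin N)) (fun o u => match o with
    | none => ¬ A u
    | some (Sum.inl k) => ¬ A u ∧ I k u = true
    | some (Sum.inr k) => ¬ A u ∨ I k u = true) ?_ ?_
  · intro o u v huv
    have hI := fun k => hI1 k u v
    have hAuv := hA u v
    match o with
    | none =>
      show ¬ A v → ¬ A u
      unfold rot at huv
      tauto
    | some (Sum.inl k) =>
      show ¬ A v ∧ I k v = true → ¬ A u ∧ I k u = true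
      have := hI k
      unfold rot at huv
      tauto
    | some (Sum.inr k) =>
      show ¬ A v ∨ I k v = true → ¬ A u ∨ I k u = true
      have := hI k
      unfold rot at huv
      tauto
  · intro u v w hu hv hw k1 k2 k3 k4
    have a3 : ∀ j, A (u j) ↔ A (v j) := fun j => not_iff_not.1 (k3 none j)
    have a4 : ∀ j, A (u j) ↔ A (w j) := fun j => not_iff_not.1 (k4 none j)
    have b3 : ∀ k j, I k (u j) = true ↔ I k (v j) = true := by
      intro k j
      have c1 : (¬ A (u j) ∧ I k (u j) = true) ↔ (¬ A (v j) ∧ I k (v j) = true) :=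
        k3 (some (Sum.inl k)) j
      have c2 : (¬ A (u j) ∨ I k (u j) = true) ↔ (¬ A (v j) ∨ I k (v j) = true) :=
        k3 (some (Sum.inr k)) j
      have := a3 j
      tauto
    have b4 : ∀ k j, I k (u j) = true ↔ I k (w j) = true := by
      intro k j
      have c1 : (¬ A (u j) ∧ I k (u j) = true) ↔ (¬ A (w j) ∧ I k (w j) = true) :=
        k4 (some (Sum.inl k)) j
      have c2 : (¬ A (u j) ∨ I k (u j) = true) ↔ (¬ A (w j) ∨ I k (w j) = true) :=
        k4 (some (Sum.inr k)) j
      have := a4 j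
      tauto
    have hle : ∀ s t s' t' : ℕ, (A s ↔ A s') → (A t ↔ A t') → (rot A le s t ↔ rot A le s' t') →
        (le s t ↔ le s' t') := by
      intro s t s' t' e1 e2 e3
      by_cases x1 : A s
      · have y1 := e1.1 x1
        by_cases x2 : A t
        · have y2 := e2.1 x2
          simpa [rot, x1, x2, y1, y2] using e3
        · have y2 : ¬ A t' := fun z => x2 (e2.2 z)
          exact ⟨fun _ => (h.total s' t').resolve_right fun z => y2 (hA _ _ z y1),
            fun _ => (h.total s t).resolve_right fun z => x2 (hA _ _ z x1)⟩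
      · have y1 : ¬ A s' := fun z => x1 (e1.2 z)
        by_cases x2 : A t
        · have y2 := e2.1 x2
          exact ⟨fun z => absurd (hA _ _ z x2) x1, fun z => absurd (hA _ _ z y2) y1⟩
        · have y2 : ¬ A t' := fun z => x2 (e2.2 z)
          simpa [rot, x1, x2, y1, y2] using e3
    have h3 := hI2 u v w hu hv hw ⟨fun j l => hle _ _ _ _ (a3 j) (a3 l) (k1 j l), b3⟩
      ⟨fun j l => hle _ _ _ _ (a4 j) (a4 l) (k2 j l), b4⟩
    have e : (fun j => md (rot A le) (u j) (v j) (w j)) = fun j => md le (u j) (v j) (w j) := by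
      funext j
      have hr : ∀ s t : ℕ, (A s ↔ A t) → (rot A le s t ↔ le s t) := by
        intro s t e1
        unfold rot
        tauto
      have c1 := a3 j
      have c2 := a4 j
      have c3 := c1.symm.trans c2
      exact md_cgr (hr _ _ c1) (hr _ _ c1.symm) (hr _ _ c2) (hr _ _ c3)
    rw [e]
    exact h3

/-- comparisons of finitely many elements are comparisons of natural numbers -/
theorem rank {le : ℕ → ℕ → Prop} (h : Lin le) (F : Finset ℕ) : ∃ g : ℕ → ℕ,
    (∀ x ∈ F, ∀ y ∈ F, (le x y ↔ g x ≤ g y)) ∧ ∀ x ∈ F, ∀ y ∈ F, (x = y ↔ g x = g y) := by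
  classical
  have key : ∀ x ∈ F, ∀ y ∈ F, (le x y ↔ (F.filter fun z => ¬ le x z).card ≤
      (F.filter fun z => ¬ le y z).card) := by
    intro x hx y hy
    constructor
    · intro hxy
      refine Finset.card_le_card fun z hz => ?_
      rw [Finset.mem_filter] at hz ⊢
      exact ⟨hz.1, fun h1 => hz.2 (h.trans _ _ _ hxy h1)⟩
    · intro h1
      by_contra hxy
      have hyx := (h.total x y).resolve_left hxy
      refine absurd h1 (not_le.2 (Finset.card_lt_card ?_))
      refine ⟨fun z hz => ?_, fun hs => ?_⟩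
      · rw [Finset.mem_filter] at hz ⊢
        exact ⟨hz.1, fun h2 => hz.2 (h.trans _ _ _ hyx h2)⟩
      · have h3 : y ∈ F.filter fun z => ¬ le y z := hs (Finset.mem_filter.2 ⟨hy, hxy⟩)
        exact (Finset.mem_filter.1 h3).2 (h.refl y)
  refine ⟨fun x => (F.filter fun z => ¬ le x z).card, key, fun x hx y hy => ?_⟩
  constructor
  · rintro rfl
    rfl
  · intro h1
    exact h.anti _ _ ((key x hx y hy).2 h1.le) ((key y hy x hx).2 h1.ge)

end Pool.Agent.H2.CO
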