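import Pool.Agent.H2.CO.Rel

set_option autoImplicit false

/-!
Relations which are piecewise closed under the median: symmetries, families of arcs, relations
defined from the order.
-/

namespace Pool.Agent.H2.CO

open Pool.Agent.H2.LP (Lin md mn mx minimum maximum op md_op le_md md_le)

variable {le : ℕ → ℕ → Prop} {n : ℕ}

/-- relations defined from the order -/
theorem qf_pm (h : Lin le) {R : (Fin n → ℕ) → Prop}
    (hR : ∀ u v : Fin n → ℕ, (∀ j l, le (u j) (u l) ↔ le (v j) (v l)) → R u → R v) : PM le R := by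
  refine pm_fin (ι := Empty) (fun k _ => k.elim) (fun k => k.elim) fun u v w hu _ _ k1 k2 _ _ => ?_
  exact hR u _ (fun j l => (md_ty h (k1 j l) (k2 j l)).symm) hu

/-- relations of arity at most one -/
theorem un_pm (hn : n ≤ 1) (R : (Fin n → ℕ) → Prop) : PM le R := by
  refine pm_fin (ι := Empty) (fun k _ => k.elim) (fun k => k.elim) fun u v w hu hv hw _ _ _ _ => ?_
  rcases Nat.eq_zero_or_pos n with h0 | h0
  · subst h0
    have : (fun j => md le (u j) (v j) (w j)) = u := funext fun j => j.elim0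
    rw [this]
    exact hu
  · obtain rfl : n = 1 := by omega
    have e : ∀ j : Fin 1, j = 0 := fun j => Subsingleton.elim _ _
    rcases md_or le (u 0) (v 0) (w 0) with h1 | h1 | h1
    · have : (fun j => md le (u j) (v j) (w j)) = u := funext fun j => by rw [e j]; exact h1
      rw [this]
      exact hu
    · have : (fun j => md le (u j) (v j) (w j)) = v := funext fun j => by rw [e j]; exact h1
      rw [this]
      exact hv
    · have : (fun j => md le (u j) (v j) (w j)) = w := funext fun j => by rw [e j]; exact h1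
      rw [this]
      exact hw

set_option linter.unusedSimpArgs false in
/-- the medians in two orders -/
theorem md_idx {le2 : ℕ → ℕ → Prop} {a b c a' b' c' : ℕ} (h1 : le a b ↔ le2 a' b')
    (h2 : le b a ↔ le2 b' a') (h3 : le a c ↔ le2 a' c') (h5 : le b c ↔ le2 b' c') :
    (md le a b c = a ∧ md le2 a' b' c' = a') ∨ (md le a b c = b ∧ md le2 a' b' c' = b') ∨
      (md le a b c = c ∧ md le2 a' b' c' = c') := by
  classical
  unfold md mx mn maximum minimum
  by_cases k1 : le a b <;> by_cases k3 : le a c <;> by_cases k5 : le b c <;>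
    by_cases k2 : le b a <;>
    simp only [← h1, ← h2, ← h3, ← h5, k1, k2, k3, k5, if_true, if_false, true_or,
      or_true, and_self]

/-- monotone partial injections between circular orders, in two linear orders -/
theorem mono_key (h : Lin le) {le2 : ℕ → ℕ → Prop} (h2 : Lin le2) {R : ℕ → ℕ → Prop}
    (hf : ∀ x y y', R x y → R x y' → y = y') (hi : ∀ x x' y, R x y → R x' y → x = x')
    (hc : ∀ x y x' y' x'' y'', R x y → R x' y' → R x'' y'' → cir le x x' x'' → cir le2 y y' y'')
    {x y x' y' : ℕ} (h3 : R x y) (h4 : R x' y')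
    (h5 : (∀ a b a' b', R a b → R a' b' → lt le a a' → le a' x → le2 b b') ↔
      (∀ a b a' b', R a b → R a' b' → lt le a a' → le a' x' → le2 b b')) :
    le x x' ↔ le2 y y' := by
  have key : ∀ x y x' y', R x y → R x' y' →
      ((∀ a b a' b', R a b → R a' b' → lt le a a' → le a' x → le2 b b') ↔
      (∀ a b a' b', R a b → R a' b' → lt le a a' → le a' x' → le2 b b')) → lt le x x' →
      lt le2 y y' := by
    intro x y x' y' h3 h4 h5 h6
    by_cases hP : ∀ a b a' b', R a b → R a' b' → lt le a a' → le a' x' → le2 b b'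
    · have h7 := hP x y x' y' h3 h4 h6 (h.refl _)
      intro h8
      have h9 := h2.anti _ _ h7 h8
      subst h9
      exact h6 (by rw [hi _ _ _ h3 h4]; exact h.refl _)
    · have hP' : ¬ ∀ a b a' b', R a b → R a' b' → lt le a a' → le a' x → le2 b b' :=
        fun h7 => hP (h5.1 h7)
      push Not at hP'
      obtain ⟨a, b, a', b', r1, r2, r3, r4, r5⟩ := hP'
      have hax : lt le a x := fun h7 => r3 (h.trans _ _ _ r4 h7)
      have hD : lt le2 y b := by
        by_cases e : a' = x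
        · subst e
          have := hf _ _ _ r2 h3
          subst this
          exact r5
        · have h7 : lt le a' x := fun h8 => e (h.anti _ _ r4 h8)
          have h8 := hc a b a' b' x y r1 r2 h3 (Or.inl ⟨r3, h7⟩)
          have h9 : lt le2 b' b := r5
          rcases h8 with h8 | h8 | h8
          · exact absurd (((h2.total b b').resolve_left r5)) h8.1
          · exact h8.2
          · exact absurd (((h2.total b b').resolve_left r5)) h8.2
      have h8 := hc a b x y x' y' r1 h3 h4 (Or.inl ⟨hax, h6⟩)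
      have h9 : le2 y b := (h2.total y b).resolve_right hD
      rcases h8 with h8 | h8 | h8
      · exact absurd h9 h8.1
      · exact h8.1
      · exact absurd h9 h8.2
  constructor
  · intro h6
    by_cases e : x = x'
    · subst e
      rw [hf _ _ _ h3 h4]
      exact h2.refl _
    · have h7 := key x y x' y' h3 h4 h5 fun h8 => e (h.anti _ _ h6 h8)
      exact (h2.total y y').resolve_right h7
  · intro h6
    by_contra h7
    exact key x' y' x y h4 h3 h5.symm h7 h6

/-- partial injections which preserve or reverse a circular order -/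
def Symm (C : ℕ → ℕ → ℕ → Prop) (R : ℕ → ℕ → Prop) : Prop :=
  (∀ x y y', R x y → R x y' → y = y') ∧ (∀ x x' y, R x y → R x' y → x = x') ∧
  ((∀ x y x' y' x'' y'', R x y → R x' y' → R x'' y'' → C x x' x'' → C y y' y'') ∨
    ∀ x y x' y' x'' y'', R x y → R x' y' → R x'' y'' → C x x' x'' → C y'' y' y)

theorem cir_op (x y z : ℕ) : cir (op le) x y z ↔ cir le z y x := by
  unfold cir lt op
  tauto

theorem symm_pm (h : Lin le) {R : ℕ → ℕ → Prop} (hR : Symm (cir le) R) :
    PM le (fun t : Fin 2 → ℕ => R (t 0) (t 1)) := by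
  obtain ⟨hf, hi, hc⟩ := hR
  obtain ⟨le2, h2, hm, hc2⟩ : ∃ le2 : ℕ → ℕ → Prop, Lin le2 ∧ (∀ a b c, md le2 a b c = md le a b c) ∧
      ∀ x y x' y' x'' y'', R x y → R x' y' → R x'' y'' → cir le x x' x'' → cir le2 y y' y'' := by
    rcases hc with hc | hc
    · exact ⟨le, h, fun _ _ _ => rfl, hc⟩
    · refine ⟨op le, h.op, md_op h, fun x y x' y' x'' y'' a1 a2 a3 a4 => ?_⟩
      rw [cir_op]
      exact hc x y x' y' x'' y'' a1 a2 a3 a4
  refine pm_fin (ι := Unit)
    (fun _ x => ∀ a b a' b', R a b → R a' b' → lt le a a' → le a' x → le2 b b') ?_ ?_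
  · intro _ u v huv hv a b a' b' r1 r2 r3 r4
    exact hv a b a' b' r1 r2 r3 (h.trans _ _ _ r4 huv)
  · intro u v w hu hv hw _ _ k3 k4
    have e1 := k3 () 0
    have e2 := k4 () 0
    have e3 := e1.symm.trans e2
    show R (md le (u 0) (v 0) (w 0)) (md le (u 1) (v 1) (w 1))
    rw [← hm (u 1) (v 1) (w 1)]
    rcases md_idx (mono_key h h2 hf hi hc2 hu hv e1) (mono_key h h2 hf hi hc2 hv hu e1.symm)
      (mono_key h h2 hf hi hc2 hu hw e2) (mono_key h h2 hf hi hc2 hv hw e3) with ⟨q1, q2⟩ |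
      ⟨q1, q2⟩ | ⟨q1, q2⟩
    · rw [q1, q2]
      exact hu
    · rw [q1, q2]
      exact hv
    · rw [q1, q2]
      exact hw

/-- families of arcs which are closed under sub-arcs -/
def Her (C : ℕ → ℕ → ℕ → Prop) (R : ℕ → ℕ → Prop) : Prop :=
  ∀ x y z, R x y → C x z y → R x z ∧ R z y

theorem her_step (h : Lin le) {R : ℕ → ℕ → Prop} (hR : Her (cir le) R) {x y x' y' : ℕ}
    (h1 : R x y) (h2 : (lt le x y ∧ lt le x' y') ∨ (lt le y x ∧ lt le y' x')) (h3 : le x x')
    (h4 : le y' y) : R x' y' := by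
  have k1 : R x' y := by
    by_cases e : x = x'
    · rw [← e]
      exact h1
    · have h5 : lt le x x' := fun h6 => e (h.anti _ _ h3 h6)
      refine (hR x y x' h1 ?_).2
      rcases h2 with h2 | h2
      · exact Or.inl ⟨h5, fun h6 => h2.2 (h.trans _ _ _ h4 h6)⟩
      · exact Or.inr (Or.inr ⟨h2.1, h5⟩)
  by_cases e : y' = y
  · rw [e]
    exact k1
  · have h5 : lt le y' y := fun h6 => e (h.anti _ _ h4 h6)
    refine (hR x' y y' k1 ?_).1
    rcases h2 with h2 | h2
    · exact Or.inl ⟨h2.2, h5⟩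
    · exact Or.inr (Or.inl ⟨h5, fun h6 => h2.1 (h.trans _ _ _ h3 h6)⟩)

theorem pig {a b c a' b' c' G : Prop} (h1 : (a ∨ b) ∧ (a ∧ b ∨ c)) (h2 : a' ∧ b' ∨ (a' ∨ b') ∧ c')
    (s1 : a → a' → G) (s2 : b → b' → G) (s3 : c → c' → G) : G := by
  obtain ⟨h3, h4⟩ := h1
  rcases h2 with ⟨h5, h6⟩ | ⟨h5, h6⟩
  · exact h3.elim (fun x => s1 x h5) fun x => s2 x h6
  · rcases h4 with ⟨h7, h8⟩ | h7
    · exact h5.elim (fun x => s1 h7 x) fun x => s2 h8 x
    · exact s3 h7 h6

theorem her_pm (h : Lin le) {R : ℕ → ℕ → Prop} (hR : Her (cir le) R) :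
    PM le (fun t : Fin 2 → ℕ => R (t 0) (t 1)) := by
  refine pm_fin (ι := Empty) (fun k _ => k.elim) (fun k => k.elim) fun u v w hu hv hw k1 k2 _ _ => ?_
  have t1 := md_ty h (k1 0 1) (k2 0 1)
  have t2 := md_ty h (k1 1 0) (k2 1 0)
  have a1 := k1 0 1
  have a2 := k1 1 0
  have b1 := k2 0 1
  have b2 := k2 1 0
  show R (md le (u 0) (v 0) (w 0)) (md le (u 1) (v 1) (w 1))
  by_cases e1 : le (u 0) (u 1)
  · by_cases e2 : le (u 1) (u 0)
    · have eu := h.anti _ _ e1 e2
      have ev := h.anti _ _ (a1.1 e1) (a2.1 e2)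
      have ew := h.anti _ _ (b1.1 e1) (b2.1 e2)
      rw [← eu, ← ev, ← ew]
      rcases md_or le (u 0) (v 0) (w 0) with q | q | q
      · rw [q]
        have : R (u 0) (u 1) := hu
        rw [← eu] at this
        exact this
      · rw [q]
        have : R (v 0) (v 1) := hv
        rw [← ev] at this
        exact this
      · rw [q]
        have : R (w 0) (w 1) := hw
        rw [← ew] at this
        exact this
    · have e3 : lt le (md le (u 0) (v 0) (w 0)) (md le (u 1) (v 1) (w 1)) := fun z => e2 (t2.1 z)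
      have p1 := (md_le h (md le (u 0) (v 0) (w 0)) (u 0) (v 0) (w 0)).1 (h.refl _)
      have p2 := (le_md h (md le (u 1) (v 1) (w 1)) (u 1) (v 1) (w 1)).1 (h.refl _)
      have s1 := her_step h hR (x := u 0) (y := u 1) (x' := md le (u 0) (v 0) (w 0))
        (y' := md le (u 1) (v 1) (w 1)) hu (Or.inl ⟨e2, e3⟩)
      have s2 := her_step h hR (x := v 0) (y := v 1) (x' := md le (u 0) (v 0) (w 0))
        (y' := md le (u 1) (v 1) (w 1)) hv (Or.inl ⟨fun z => e2 (a2.2 z), e3⟩)
      have s3 := her_step h hR (x := w 0) (y := w 1) (x' := md le (u 0) (v 0) (w 0))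
        (y' := md le (u 1) (v 1) (w 1)) hw (Or.inl ⟨fun z => e2 (b2.2 z), e3⟩)
      exact pig p1 p2 s1 s2 s3
  · have e3 : lt le (md le (u 1) (v 1) (w 1)) (md le (u 0) (v 0) (w 0)) := fun z => e1 (t1.1 z)
    have p1 := (md_le h (md le (u 0) (v 0) (w 0)) (u 0) (v 0) (w 0)).1 (h.refl _)
    have p2 := (le_md h (md le (u 1) (v 1) (w 1)) (u 1) (v 1) (w 1)).1 (h.refl _)
    have s1 := her_step h hR (x := u 0) (y := u 1) (x' := md le (u 0) (v 0) (w 0))
      (y' := md le (u 1) (v 1) (w 1)) hu (Or.inr ⟨e1, e3⟩)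
    have s2 := her_step h hR (x := v 0) (y := v 1) (x' := md le (u 0) (v 0) (w 0))
      (y' := md le (u 1) (v 1) (w 1)) hv (Or.inr ⟨fun z => e1 (a1.2 z), e3⟩)
    have s3 := her_step h hR (x := w 0) (y := w 1) (x' := md le (u 0) (v 0) (w 0))
      (y' := md le (u 1) (v 1) (w 1)) hw (Or.inr ⟨fun z => e1 (b1.2 z), e3⟩)
    exact pig p1 p2 s1 s2 s3

/-! ### circular orders -/

/-- circular orders -/
structure Circ (C : ℕ → ℕ → ℕ → Prop) : Prop where
  cyc : ∀ x y z, C x y z → C y z x
  asym : ∀ x y z, C x y z → ¬ C z y x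
  trans : ∀ x y z w, C x y z → C x z w → C x y w
  total : ∀ x y z, x ≠ y → y ≠ z → x ≠ z → C x y z ∨ C z y x

section circ

variable {C : ℕ → ℕ → ℕ → Prop} (h : Circ C)

include h

theorem Circ.ne1 {x y z : ℕ} (h1 : C x y z) : x ≠ z := by
  rintro rfl
  exact h.asym _ _ _ h1 h1

theorem Circ.ne2 {x y z : ℕ} (h1 : C x y z) : x ≠ y := fun e =>
  h.ne1 (h.cyc _ _ _ h1) e.symm

theorem Circ.ne3 {x y z : ℕ} (h1 : C x y z) : y ≠ z := h.ne2 (h.cyc _ _ _ h1)

theorem oc_lin (p : ℕ) : Lin (oc C p) := by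
  refine ⟨fun u => Or.inl rfl, fun u v => ?_, fun u v w => ?_, fun u v => ?_⟩
  · rintro (h1 | h1 | h1) (h2 | h2 | h2)
    · exact h1
    · exact h1
    · exact h1
    · exact h2.symm
    · exact h1.trans h2.symm
    · subst h1
      exact absurd rfl (h.ne1 h2)
    · exact h2.symm
    · subst h2
      exact absurd rfl (h.ne1 h1)
    · exact absurd (h.cyc _ _ _ h2) (h.asym _ _ _ h1)
  · rintro (h1 | h1 | h1) (h2 | h2 | h2)
    · exact Or.inl (h1.trans h2)
    · exact Or.inr (Or.inl (h1.trans h2))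
    · rw [h1]
      exact Or.inr (Or.inr h2)
    · exact Or.inr (Or.inl h1)
    · exact Or.inr (Or.inl h1)
    · exact Or.inr (Or.inl h1)
    · rw [← h2]
      exact Or.inr (Or.inr h1)
    · subst h2
      exact absurd rfl (h.ne1 h1)
    · exact Or.inr (Or.inr (h.trans _ _ _ _ h1 h2))
  · by_cases e1 : u = v
    · exact Or.inl (Or.inl e1)
    by_cases e2 : u = p
    · exact Or.inl (Or.inr (Or.inl e2))
    by_cases e3 : v = p
    · exact Or.inr (Or.inr (Or.inl e3))
    rcases h.total p u v (Ne.symm e2) e1 (Ne.symm e3) with h1 | h1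
    · exact Or.inl (Or.inr (Or.inr h1))
    · exact Or.inr (Or.inr (Or.inr (h.cyc _ _ _ (h.cyc _ _ _ h1))))

theorem lt_oc {p u v : ℕ} : lt (oc C p) u v ↔ (u = p ∧ v ≠ p) ∨ C p u v := by
  unfold lt oc
  constructor
  · intro h1
    push Not at h1
    obtain ⟨h2, h3, h4⟩ := h1
    by_cases e : u = p
    · exact Or.inl ⟨e, h3⟩
    · right
      rcases h.total p u v (Ne.symm e) (Ne.symm h2) (Ne.symm h3) with h5 | h5
      · exact h5
      · exact absurd (h.cyc _ _ _ (h.cyc _ _ _ h5)) h4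
  · rintro (⟨h1, h2⟩ | h1) (h3 | h3 | h3)
    · exact h2 (h3.trans h1)
    · exact h2 h3
    · exact h.ne1 h3 h1.symm
    · exact h.ne3 h1 h3.symm
    · exact h.ne1 h1 h3.symm
    · exact h.asym _ _ _ h1 (h.cyc _ _ _ h3)

theorem cir_oc (p x y z : ℕ) : C x y z ↔ cir (oc C p) x y z := by
  have step : ∀ x y z, lt (oc C p) x y → lt (oc C p) y z → C x y z := by
    intro x y z h1 h2
    rw [lt_oc h] at h1 h2
    rcases h1 with ⟨h1, h3⟩ | h1
    · rcases h2 with ⟨h2, h4⟩ | h2
      · exact absurd h2 h3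
      · rw [h1]
        exact h2
    · rcases h2 with ⟨h2, h4⟩ | h2
      · exact absurd h2.symm (h.ne1 h1)
      · have h3 := h.cyc _ _ _ h2
        have h4 := h.cyc _ _ _ (h.cyc _ _ _ h1)
        exact h.cyc _ _ _ (h.cyc _ _ _ (h.trans _ _ _ _ h3 h4))
  have back : ∀ x y z, cir (oc C p) x y z → C x y z := by
    rintro x y z (h1 | h1 | h1)
    · exact step _ _ _ h1.1 h1.2
    · exact h.cyc _ _ _ (h.cyc _ _ _ (step _ _ _ h1.1 h1.2))
    · exact h.cyc _ _ _ (step _ _ _ h1.1 h1.2)
  refine ⟨fun h1 => ?_, back x y z⟩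
  by_contra h2
  have hL := oc_lin h p
  have t1 : ∀ u v, u ≠ v → lt (oc C p) u v ∨ lt (oc C p) v u := by
    intro u v huv
    rcases hL.total u v with h3 | h3
    · exact Or.inl fun h4 => huv (hL.anti _ _ h3 h4)
    · exact Or.inr fun h4 => huv (hL.anti _ _ h4 h3)
  have h3 : cir (oc C p) z y x := by
    have a1 := t1 x y (h.ne2 h1)
    have a2 := t1 y z (h.ne3 h1)
    have a3 := t1 x z (h.ne1 h1)
    unfold cir at h2 ⊢
    tauto
  exact h.asym _ _ _ h1 (back _ _ _ h3)

end circ

end Pool.Agent.H2.CO
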